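import Mathlib

/-!
# Twins in graphs without an induced path on four vertices
-/

namespace Pool.Agent.Q322.CC

variable {V : Type}

/-- No induced path on four vertices inside the set `U`, for the adjacency relation `A`. -/
def PFree (A : V → V → Prop) (U : Finset V) : Prop :=
  ∀ a ∈ U, ∀ b ∈ U, ∀ c ∈ U, ∀ d ∈ U, A a b → A b c → A c d → ¬ A a c → ¬ A a d → ¬ A b d →
    a ≠ c → a ≠ d → b ≠ d → False

theorem PFree.mono {A : V → V → Prop} {U U' : Finset V} (h : PFree A U) (hU : U' ⊆ U) :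
    PFree A U' := fun a ha b hb c hc d hd =>
  h a (hU ha) b (hU hb) c (hU hc) d (hU hd)

/-- The complementary relation. -/
def co (A : V → V → Prop) (x y : V) : Prop := x ≠ y ∧ ¬ A x y

theorem PFree.co {A : V → V → Prop} (hs : ∀ x y, A x y → A y x) {U : Finset V}
    (h : PFree A U) : PFree (co A) U := by
  intro a ha b hb c hc d hd h1 h2 h3 h4 h5 h6 h7 h8 h9
  have e1 : A a c := by by_contra hn; exact h4 ⟨h7, hn⟩
  have e2 : A a d := by by_contra hn; exact h5 ⟨h8, hn⟩
  have e3 : A b d := by by_contra hn; exact h6 ⟨h9, hn⟩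
  exact h b hb d hd a ha c hc e3 (hs _ _ e2) e1 (fun h' => h1.2 (hs _ _ h')) h2.2
    (fun h' => h3.2 (hs _ _ h')) (Ne.symm h1.1) h2.1 (Ne.symm h3.1)

/-- Splitting off a vertex. -/
theorem split_step {A : V → V → Prop} [DecidableEq V] (hs : ∀ x y, A x y → A y x)
    {U B C : Finset V} {v : V} (h : PFree A U) (hv : v ∈ U) (hB : B.Nonempty)
    (hC : C.Nonempty) (hU : U.erase v = B ∪ C) (hd : Disjoint B C)
    (hbc : ∀ b ∈ B, ∀ c ∈ C, ¬ A b c) :
    ∃ D ⊆ U, D.Nonempty ∧ (U \ D).Nonempty ∧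
      ((∀ x ∈ D, ∀ y ∈ U \ D, A x y) ∨ (∀ x ∈ D, ∀ y ∈ U \ D, ¬ A x y)) := by
  classical
  have hBU : ∀ b ∈ B, b ∈ U ∧ b ≠ v := fun b hb => by
    have : b ∈ U.erase v := by rw [hU]; exact Finset.mem_union_left _ hb
    exact ⟨Finset.mem_of_mem_erase this, Finset.ne_of_mem_erase this⟩
  have hCU : ∀ b ∈ C, b ∈ U ∧ b ≠ v := fun b hb => by
    have : b ∈ U.erase v := by rw [hU]; exact Finset.mem_union_right _ hb
    exact ⟨Finset.mem_of_mem_erase this, Finset.ne_of_mem_erase this⟩
  have hcase : ∀ x ∈ U, x = v ∨ x ∈ B ∨ x ∈ C := by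
    intro x hx
    by_cases hxv : x = v
    · exact Or.inl hxv
    · right
      have : x ∈ U.erase v := Finset.mem_erase.2 ⟨hxv, hx⟩
      rw [hU] at this
      exact Finset.mem_union.1 this
  -- a general step
  have key : ∀ B C : Finset V, (∀ b ∈ B, b ∈ U ∧ b ≠ v) → (∀ b ∈ C, b ∈ U ∧ b ≠ v) →
      (∀ x ∈ U, x = v ∨ x ∈ B ∨ x ∈ C) → (∀ b ∈ B, ∀ c ∈ C, ¬ A b c) → C.Nonempty →
      (∃ c ∈ C, A v c) → (∃ x ∈ B, ¬ A v x) →
      ∃ D ⊆ U, D.Nonempty ∧ (U \ D).Nonempty ∧
        ((∀ x ∈ D, ∀ y ∈ U \ D, A x y) ∨ (∀ x ∈ D, ∀ y ∈ U \ D, ¬ A x y)) := by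
    intro B C hBU hCU hcase hbc hC hc hx
    obtain ⟨c, hc, hvc⟩ := hc
    obtain ⟨x, hx, hvx⟩ := hx
    refine ⟨B.filter (fun x => ¬ A v x), fun y hy => (hBU y (Finset.mem_filter.1 hy).1).1,
      ⟨x, Finset.mem_filter.2 ⟨hx, hvx⟩⟩, ⟨v, ?_⟩, Or.inr ?_⟩
    · rw [Finset.mem_sdiff]
      exact ⟨hv, fun h' => (hBU v (Finset.mem_filter.1 h').1).2 rfl⟩
    · intro y hy z hz hyz
      obtain ⟨hyB, hvy⟩ := Finset.mem_filter.1 hy
      obtain ⟨hzU, hzD⟩ := Finset.mem_sdiff.1 hz
      rcases hcase z hzU with rfl | hzB | hzC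
      · exact hvy (hs _ _ hyz)
      · have hvz : A v z := by
          by_contra hn
          exact hzD (Finset.mem_filter.2 ⟨hzB, hn⟩)
        refine h y (hBU y hyB).1 z hzU v hv c (hCU c hc).1 hyz (hs _ _ hvz) hvc
          (fun h' => hvy (hs _ _ h')) (hbc y hyB c hc) (hbc z hzB c hc) (hBU y hyB).2 ?_ ?_
        · rintro rfl
          exact hvy hvc
        · rintro rfl
          exact hbc y hyB z hc hyz
      · exact hbc y hyB z hzC hyz
  by_cases h1 : ∃ b ∈ B, A v b
  · by_cases h2 : ∃ c ∈ C, A v c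
    · by_cases h3 : ∃ x ∈ B, ¬ A v x
      · exact key B C hBU hCU hcase hbc hC h2 h3
      · by_cases h4 : ∃ x ∈ C, ¬ A v x
        · exact key C B hCU hBU (fun x hx => by rcases hcase x hx with h | h | h <;> simp [h])
            (fun b hb c hc h' => hbc c hc b hb (hs _ _ h')) hB h1 h4
        · push Not at h3 h4
          refine ⟨{v}, by simpa using hv, ⟨v, by simp⟩, ?_, Or.inl ?_⟩
          · obtain ⟨b, hb⟩ := hB
            exact ⟨b, by simp [(hBU b hb).1, (hBU b hb).2]⟩
          · intro x hx y hy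
            rw [Finset.mem_singleton] at hx
            subst hx
            obtain ⟨hyU, hyv⟩ := Finset.mem_sdiff.1 hy
            rcases hcase y hyU with rfl | h | h
            · exact absurd (Finset.mem_singleton_self _) hyv
            · exact h3 y h
            · exact h4 y h
    · push Not at h2
      refine ⟨C, fun c hc => (hCU c hc).1, hC, ⟨v, ?_⟩, Or.inr ?_⟩
      · rw [Finset.mem_sdiff]
        exact ⟨hv, fun h' => (hCU v h').2 rfl⟩
      · intro x hx y hy hxy
        obtain ⟨hyU, hyC⟩ := Finset.mem_sdiff.1 hy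
        rcases hcase y hyU with rfl | h | h
        · exact h2 x hx (hs _ _ hxy)
        · exact hbc y h x hx (hs _ _ hxy)
        · exact hyC h
  · push Not at h1
    refine ⟨B, fun c hc => (hBU c hc).1, hB, ⟨v, ?_⟩, Or.inr ?_⟩
    · rw [Finset.mem_sdiff]
      exact ⟨hv, fun h' => (hBU v h').2 rfl⟩
    · intro x hx y hy hxy
      obtain ⟨hyU, hyB⟩ := Finset.mem_sdiff.1 hy
      rcases hcase y hyU with rfl | h | h
      · exact h1 x hx (hs _ _ hxy)
      · exact hyB h
      · exact hbc x hx y h hxy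

/-- A set without induced path on four vertices splits into two parts, which are completely
adjacent or completely non-adjacent. -/
theorem exists_split (n : ℕ) : ∀ (A : V → V → Prop) (_ : ∀ x y, A x y → A y x)
    (_ : ∀ x, ¬ A x x) (U : Finset V) (_ : U.card = n + 2) (_ : PFree A U) [DecidableEq V],
    ∃ D ⊆ U, D.Nonempty ∧ (U \ D).Nonempty ∧
      ((∀ x ∈ D, ∀ y ∈ U \ D, A x y) ∨ (∀ x ∈ D, ∀ y ∈ U \ D, ¬ A x y)) := by
  classical
  induction n with
  | zero =>
    intro A hs hi U hU h _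
    rw [Finset.card_eq_two] at hU
    obtain ⟨x, y, hxy, rfl⟩ := hU
    have hsub : ({x, y} : Finset V) \ {x} = {y} := by
      ext z
      simp only [Finset.mem_sdiff, Finset.mem_insert, Finset.mem_singleton]
      constructor
      · rintro ⟨h1 | h1, h2⟩
        · exact absurd h1 h2
        · exact h1
      · rintro rfl
        exact ⟨Or.inr rfl, Ne.symm hxy⟩
    refine ⟨{x}, by simp, by simp, ?_, ?_⟩
    · rw [hsub]; simp
    · rw [hsub]
      by_cases hA : A x y
      · left; simpa using hA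
      · right; simpa using hA
  | succ n ih =>
    intro A hs hi U hU h _
    obtain ⟨v, hv⟩ : U.Nonempty := by
      rw [← Finset.card_pos]; omega
    have hcard : (U.erase v).card = n + 2 := by
      rw [Finset.card_erase_of_mem hv]; omega
    obtain ⟨D, hD, h1, h2, h3⟩ := ih A hs hi (U.erase v) hcard
      (h.mono (Finset.erase_subset _ _))
    have hun : U.erase v = D ∪ (U.erase v \ D) := by
      rw [Finset.union_sdiff_of_subset hD]
    rcases h3 with h3 | h3
    · -- pass to the complement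
      have hs' : ∀ x y, co A x y → co A y x := fun x y hxy =>
        ⟨Ne.symm hxy.1, fun h' => hxy.2 (hs _ _ h')⟩
      obtain ⟨D', hD', e1, e2, e3⟩ := split_step hs' (h.co hs) hv h1 h2 hun
        Finset.disjoint_sdiff (fun b hb c hc hbc => hbc.2 (h3 b hb c hc))
      refine ⟨D', hD', e1, e2, ?_⟩
      have hne : ∀ x ∈ D', ∀ y ∈ U \ D', x ≠ y := by
        rintro x hx y hy rfl
        exact (Finset.mem_sdiff.1 hy).2 hx
      rcases e3 with e3 | e3
      · exact Or.inr fun x hx y hy => (e3 x hx y hy).2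
      · left
        intro x hx y hy
        by_contra hn
        exact e3 x hx y hy ⟨hne x hx y hy, hn⟩
    · exact split_step hs h hv h1 h2 hun Finset.disjoint_sdiff h3

/-- Twins. -/
theorem exists_twins {A : V → V → Prop} (hs : ∀ x y, A x y → A y x) (hi : ∀ x, ¬ A x x) :
    ∀ (n : ℕ) (U : Finset V), U.card = n + 2 → PFree A U →
      ∃ u ∈ U, ∃ v ∈ U, u ≠ v ∧ ∀ w ∈ U, w ≠ u → w ≠ v → (A u w ↔ A v w) := by
  classical
  intro n
  induction n using Nat.strong_induction_on with
  | _ n ih =>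
    intro U hU h
    obtain ⟨D, hD, h1, h2, h3⟩ := exists_split n A hs hi U hU h
    have hcard : D.card + (U \ D).card = n + 2 := by
      rw [← hU, Finset.card_sdiff_of_subset hD]
      have := Finset.card_le_card hD
      omega
    have p1 := Finset.card_pos.2 h1
    have p2 := Finset.card_pos.2 h2
    by_cases hn : n = 0
    · subst hn
      rw [Finset.card_eq_two] at hU
      obtain ⟨x, y, hxy, rfl⟩ := hU
      refine ⟨x, by simp, y, by simp, hxy, ?_⟩
      intro w hw hwx hwy
      rw [Finset.mem_insert, Finset.mem_singleton] at hw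
      rcases hw with h | h
      · exact absurd h hwx
      · exact absurd h hwy
    · by_cases hD2 : 2 ≤ D.card
      · obtain ⟨u, hu, v, hv, huv, e⟩ := ih (D.card - 2) (by omega) D (by omega) (h.mono hD)
        refine ⟨u, hD hu, v, hD hv, huv, fun w hw hwu hwv => ?_⟩
        by_cases hwD : w ∈ D
        · exact e w hwD hwu hwv
        · have hw' : w ∈ U \ D := Finset.mem_sdiff.2 ⟨hw, hwD⟩
          rcases h3 with h3 | h3
          · exact ⟨fun _ => h3 v hv w hw', fun _ => h3 u hu w hw'⟩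
          · exact ⟨fun h' => absurd h' (h3 u hu w hw'), fun h' => absurd h' (h3 v hv w hw')⟩
      · obtain ⟨u, hu, v, hv, huv, e⟩ := ih ((U \ D).card - 2) (by omega) (U \ D) (by omega)
          (h.mono Finset.sdiff_subset)
        refine ⟨u, (Finset.mem_sdiff.1 hu).1, v, (Finset.mem_sdiff.1 hv).1, huv,
          fun w hw hwu hwv => ?_⟩
        by_cases hwD : w ∈ D
        · rcases h3 with h3 | h3
          · exact ⟨fun _ => hs _ _ (h3 w hwD v hv), fun _ => hs _ _ (h3 w hwD u hu)⟩
          · exact ⟨fun h' => absurd (hs _ _ h') (h3 w hwD u hu),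
              fun h' => absurd (hs _ _ h') (h3 w hwD v hv)⟩
        · exact e w (Finset.mem_sdiff.2 ⟨hw, hwD⟩) hwu hwv

end Pool.Agent.Q322.CC
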