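import Pool.Agent.H633R2.Ctr.AlgE
import Pool.Agent.Q322.CC.Twin

/-!
# The algorithm for contraction to cographs: definitions
-/

namespace Pool.Agent.Q322.CC

open Pool.Agent.H633R2 Pool.Agent.H633R2.Ctr

/-- Adjacency of points: the point `0` is no vertex, the point `v + 1` is the vertex `v`. -/
def ajp (M : List (List Bool)) (p q : ℕ) : Bool :=
  !(decide (p = 0)) && (!(decide (q = 0)) && adj false M (p - 1) (q - 1))

/-- The pattern of a list of points, relative to a list `X` of points. -/
def pat (M : List (List Bool)) (X u : List ℕ) : List (Bool × List (Bool × Bool) × List Bool) :=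
  u.map fun p => (decide (p = 0), u.map (fun q => (decide (p = q), ajp M p q)),
    X.map (fun x => ajp M p x))

/-- The profile of an assignment `σ` on the module `m`. -/
def prof (M : List (List Bool)) (X m σ : List ℕ) :
    List (List (Bool × List (Bool × Bool) × List Bool)) :=
  (tuples 4 (0 :: m.map (fun v => v + 1))).map fun w => pat M X (σ ++ w)

/-- inclusion of lists -/
def sub {β : Type} [DecidableEq β] (A B : List β) : Bool := A.all fun a => decide (a ∈ B)

/-- equivalence of assignments -/
def eqv (M : List (List Bool)) (X m σ τ : List ℕ) : Bool :=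
  sub (prof M X m σ) (prof M X m τ) && sub (prof M X m τ) (prof M X m σ)

/-- one step of the choice of representatives -/
def pstep (M : List (List Bool)) (X m : List ℕ) (acc : List (List ℕ)) (σ : List ℕ) :
    List (List ℕ) :=
  bif acc.any (fun τ => eqv M X m σ τ) then acc else σ :: acc

/-- representatives of the equivalence classes -/
def prn (M : List (List Bool)) (X m : List ℕ) (T : List (List ℕ)) : List (List ℕ) :=
  T.foldl (pstep M X m) []

/-- disjoint supports -/
def dsj (σ τ : List ℕ) : Bool := (σ.zip τ).all fun p => decide (p.1 = 0) || decide (p.2 = 0)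

/-- union of assignments -/
def addl (σ τ : List ℕ) : List ℕ := (σ.zip τ).map fun p => p.1 + p.2

/-- all unions -/
def comb (S T : List (List ℕ)) : List (List ℕ) :=
  S.flatMap fun σ => (T.filter (fun τ => dsj σ τ)).map fun τ => addl σ τ

/-- nodes: a module together with representative assignments -/
abbrev Nd := List ℕ × List (List ℕ)

/-- merging two nodes -/
def mrg (M : List (List Bool)) (X : List ℕ) (cap : ℕ) (a b : Nd) : Nd :=
  ((a.1 ++ b.1).take M.length, (prn M X (a.1 ++ b.1) (comb a.2 b.2)).take cap)

/-- adjacency of modules -/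
def amd (M : List (List Bool)) (a b : Nd) : Bool := adj false M (a.1.headD 0) (b.1.headD 0)

/-- twins among the modules -/
def twn (M : List (List Bool)) (St : List Nd) (a b : Nd) : Bool :=
  !(decide (a.1 = b.1)) && St.all (fun c => (decide (c.1 = a.1) || decide (c.1 = b.1)) ||
    !(amd M a c ^^ amd M b c))

/-- the pairs of twins -/
def tws (M : List (List Bool)) (St : List Nd) : List (Nd × Nd) :=
  St.flatMap fun a => (St.filter (fun b => twn M St a b)).map fun b => (a, b)

/-- one step of the algorithm -/
def stp (M : List (List Bool)) (X : List ℕ) (cap : ℕ) (St : List Nd) : List Nd :=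
  ((tws M St).head?).elim St (fun p => mrg M X cap p.1 p.2 ::
    St.filter (fun c => !(decide (c.1 = p.1.1)) && !(decide (c.1 = p.2.1))))

/-- all assignments of `s` slots to the vertex `v` -/
def cube (v cap s : ℕ) : List (List ℕ) :=
  (fun E => (E.flatMap (fun l => [0 :: l, (v + 1) :: l])).take cap)^[s] [[]]

/-- the test for induced paths on four vertices -/
def isq (a s : ℕ → ℕ → Bool) (f : List ℕ) : Bool :=
  (a (f.getD 0 0) (f.getD 1 0) && (a (f.getD 1 0) (f.getD 2 0) && a (f.getD 2 0) (f.getD 3 0))) &&
  ((!(a (f.getD 0 0) (f.getD 2 0)) && (!(a (f.getD 0 0) (f.getD 3 0)) &&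
    !(a (f.getD 1 0) (f.getD 3 0)))) &&
  (!(s (f.getD 0 0) (f.getD 2 0)) && (!(s (f.getD 0 0) (f.getD 3 0)) &&
    !(s (f.getD 1 0) (f.getD 3 0)))))

/-- one step of the packing of paths -/
def xstp (M : List (List Bool)) (acc f : List ℕ) : List ℕ :=
  bif isq (fun x y => adj false M x y) (fun x y => decide (x = y)) f &&
    f.all (fun x => !(decide (x ∈ acc))) then f ++ acc else acc

/-- a maximal packing of induced paths on four vertices -/
def mod (M : List (List Bool)) : List ℕ :=
  (tuples 4 (List.range M.length)).foldl (xstp M) []

/-- the other vertices -/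
def rst (M : List (List Bool)) : List ℕ :=
  (List.range M.length).filter fun x => !(decide (x ∈ mod M))

/-- the final node -/
def run (M : List (List Bool)) (k cap : ℕ) : List Nd :=
  (stp M ((mod M).map (fun v => v + 1)) cap)^[M.length]
    ((rst M).map fun v => ([v], cube v cap (2 * k)))

/-- the candidate set -/
def cand (M : List (List Bool)) (k cap : ℕ) : List ℕ :=
  mod M ++ (((run M k cap).flatMap fun a => a.2.flatten).map fun p => p - 1)

/-- the test for solutions -/
def chk4 (M : List (List Bool)) (k : ℕ) (L : List (ℕ × ℕ)) : Bool :=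
  (decide (L.length ≤ k) && L.all (fun e => adj false M e.1 e.2)) &&
    !((tuples 4 (List.range M.length)).any (fun f =>
      isq (fun x y => xad false M (labs M.length L) x y) (fun x y => sam (labs M.length L) x y) f))

/-- the algorithm -/
def alg4 (M : List (List Bool)) (k cap cap' : ℕ) : Bool :=
  (enu (prs M (cand M k cap)) cap' k).any (fun L => chk4 M k L)

end Pool.Agent.Q322.CC
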