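import Pool.Agent.Q322.CC.Alg

/-!
# Patterns and their composition
-/

namespace Pool.Agent.Q322.CC

open Pool.Agent.H633R2 Pool.Agent.H633R2.Ctr

variable {M : List (List Bool)} {X : List ℕ}

theorem adj_symm (x y : ℕ) : adj false M x y = adj false M y x := by
  rw [Bool.eq_iff_iff]
  exact ⟨Aj_symm x y, Aj_symm y x⟩

theorem ajp_symm (p q : ℕ) : ajp M p q = ajp M q p := by
  unfold ajp
  rw [adj_symm]
  cases decide (p = 0) <;> cases decide (q = 0) <;> simp

@[simp] theorem ajp_zero (q : ℕ) : ajp M 0 q = false := by simp [ajp]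

@[simp] theorem ajp_zero' (q : ℕ) : ajp M q 0 = false := by simp [ajp]

theorem ajp_pos {p q : ℕ} (hp : p ≠ 0) (hq : q ≠ 0) : ajp M p q = adj false M (p - 1) (q - 1) := by
  simp [ajp, hp, hq]

/-- The meaning of equality of patterns. -/
def PE (M : List (List Bool)) (X : List ℕ) (N : ℕ) (u u' : ℕ → ℕ) : Prop :=
  (∀ i < N, u i = 0 ↔ u' i = 0) ∧ (∀ i < N, ∀ j < N, u i = u j ↔ u' i = u' j) ∧
    (∀ i < N, ∀ j < N, ajp M (u i) (u j) = ajp M (u' i) (u' j)) ∧
    ∀ i < N, ∀ x ∈ X, ajp M (u i) x = ajp M (u' i) x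

theorem PE.symm {N : ℕ} {u u' : ℕ → ℕ} (h : PE M X N u u') : PE M X N u' u :=
  ⟨fun i hi => (h.1 i hi).symm, fun i hi j hj => (h.2.1 i hi j hj).symm,
    fun i hi j hj => (h.2.2.1 i hi j hj).symm, fun i hi x hx => (h.2.2.2 i hi x hx).symm⟩

theorem pat_length (u : List ℕ) : (pat M X u).length = u.length := by simp [pat]

theorem length_of_pat {u u' : List ℕ} (h : pat M X u = pat M X u') : u.length = u'.length := by
  rw [← pat_length (M := M) (X := X) u, h, pat_length]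

theorem pat_iff {u u' : List ℕ} (hl : u.length = u'.length) : pat M X u = pat M X u' ↔
    PE M X u.length (fun i => u.getD i 0) (fun i => u'.getD i 0) := by
  have hg : ∀ {l : List ℕ} {i : ℕ} (h : i < l.length), l.getD i 0 = l[i] := by
    intro l i h
    simp [List.getD_eq_getElem?_getD, h]
  constructor
  · intro h
    have key : ∀ i (hi : i < u.length), (decide (u[i] = 0), u.map (fun q => (decide (u[i] = q),
        ajp M u[i] q)), X.map (fun x => ajp M u[i] x)) =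
        (decide (u'[i]'(hl ▸ hi) = 0), u'.map (fun q => (decide (u'[i]'(hl ▸ hi) = q),
        ajp M (u'[i]'(hl ▸ hi)) q)), X.map (fun x => ajp M (u'[i]'(hl ▸ hi)) x)) := by
      intro i hi
      have h1 : (pat M X u)[i]'(by rw [pat_length]; exact hi) =
          (pat M X u')[i]'(by rw [pat_length]; exact hl ▸ hi) := by
        simp only [h]
      simpa [pat] using h1
    have kk : ∀ i (hi : i < u.length) j (hj : j < u.length),
        (decide (u[i] = u[j]), ajp M u[i] u[j]) =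
        (decide (u'[i]'(hl ▸ hi) = u'[j]'(hl ▸ hj)), ajp M (u'[i]'(hl ▸ hi)) (u'[j]'(hl ▸ hj))) := by
      intro i hi j hj
      have h1 := (Prod.mk.inj (Prod.mk.inj (key i hi)).2).1
      have h2 : (u.map (fun q => (decide (u[i] = q), ajp M u[i] q)))[j]'(by simpa using hj) =
          (u'.map (fun q => (decide (u'[i]'(hl ▸ hi) = q),
            ajp M (u'[i]'(hl ▸ hi)) q)))[j]'(by simpa using (hl ▸ hj)) := by
        simp only [h1]
      simpa using h2
    refine ⟨fun i hi => ?_, fun i hi j hj => ?_, fun i hi j hj => ?_, fun i hi x hx => ?_⟩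
    · have := (Prod.mk.inj (key i hi)).1
      rw [decide_eq_decide] at this
      simp only [hg hi, hg (hl ▸ hi)]
      exact this
    · have := (Prod.mk.inj (kk i hi j hj)).1
      rw [decide_eq_decide] at this
      simp only [hg hi, hg (hl ▸ hi), hg hj, hg (hl ▸ hj)]
      exact this
    · have := (Prod.mk.inj (kk i hi j hj)).2
      simp only [hg hi, hg (hl ▸ hi), hg hj, hg (hl ▸ hj)]
      exact this
    · have := (Prod.mk.inj (Prod.mk.inj (key i hi)).2).2
      rw [List.map_inj_left] at this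
      simp only [hg hi, hg (hl ▸ hi)]
      exact this x hx
  · rintro ⟨h1, h2, h3, h4⟩
    unfold pat
    refine List.ext_getElem (by simpa using hl) ?_
    intro i hi hi'
    rw [List.length_map] at hi hi'
    simp only [List.getElem_map]
    refine Prod.ext ?_ (Prod.ext ?_ ?_)
    · simp only [decide_eq_decide]
      have := h1 i hi
      simp only [hg hi, hg hi'] at this
      exact this
    · simp only
      refine List.ext_getElem (by simpa using hl) ?_
      intro j hj hj'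
      rw [List.length_map] at hj hj'
      simp only [List.getElem_map]
      have e1 := h2 i hi j hj
      have e2 := h3 i hi j hj
      simp only [hg hi, hg hi', hg hj, hg hj'] at e1 e2
      rw [e2, decide_eq_decide.2 e1]
    · simp only
      rw [List.map_inj_left]
      intro x hx
      have := h4 i hi x hx
      simp only [hg hi, hg hi'] at this
      exact this

/-- A function of points which takes its values in the module `m`. -/
def Prop' (m : List ℕ) (N : ℕ) (u : ℕ → ℕ) : Prop := ∀ i < N, u i = 0 ∨ u i - 1 ∈ m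

/-- The composition lemma. -/
theorem comp {m₁ m₂ : List ℕ} (hd : ∀ v ∈ m₁, v ∉ m₂) {c : Bool}
    (hc : ∀ x ∈ m₁, ∀ y ∈ m₂, adj false M x y = c) {N : ℕ} {u₁ u₂ v₁ v₂ : ℕ → ℕ}
    (pu₁ : Prop' m₁ N u₁) (pv₁ : Prop' m₁ N v₁) (pu₂ : Prop' m₂ N u₂) (pv₂ : Prop' m₂ N v₂)
    (hdis : ∀ i < N, u₁ i = 0 ∨ u₂ i = 0) (h₁ : PE M X N u₁ v₁) (h₂ : PE M X N u₂ v₂) :
    PE M X N (fun i => u₁ i + u₂ i) (fun i => v₁ i + v₂ i) := by
  have cs : ∀ i < N, (u₁ i = 0 ∧ u₂ i = 0 ∧ v₁ i = 0 ∧ v₂ i = 0) ∨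
      (u₁ i ≠ 0 ∧ u₂ i = 0 ∧ v₁ i ≠ 0 ∧ v₂ i = 0 ∧ u₁ i - 1 ∈ m₁ ∧ v₁ i - 1 ∈ m₁) ∨
      (u₁ i = 0 ∧ u₂ i ≠ 0 ∧ v₁ i = 0 ∧ v₂ i ≠ 0 ∧ u₂ i - 1 ∈ m₂ ∧ v₂ i - 1 ∈ m₂) := by
    intro i hi
    have a1 := h₁.1 i hi
    have a2 := h₂.1 i hi
    have a3 := hdis i hi
    have a4 := pu₁ i hi
    have a5 := pv₁ i hi
    have a6 := pu₂ i hi
    have a7 := pv₂ i hi
    by_cases p1 : u₁ i = 0
    · by_cases p2 : u₂ i = 0
      · exact Or.inl ⟨p1, p2, a1.1 p1, a2.1 p2⟩
      · exact Or.inr (Or.inr ⟨p1, p2, a1.1 p1, fun h => p2 (a2.2 h), a6.resolve_left p2,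
          a7.resolve_left (fun h => p2 (a2.2 h))⟩)
    · have p2 : u₂ i = 0 := a3.resolve_left p1
      exact Or.inr (Or.inl ⟨p1, p2, fun h => p1 (a1.2 h), a2.1 p2, a4.resolve_left p1,
        a5.resolve_left (fun h => p1 (a1.2 h))⟩)
  have ne12 : ∀ {p q : ℕ}, p ≠ 0 → q ≠ 0 → p - 1 ∈ m₁ → q - 1 ∈ m₂ → p ≠ q := by
    rintro p q hp hq h1 h2 rfl
    exact hd _ h1 h2
  refine ⟨fun i hi => ?_, fun i hi j hj => ?_, fun i hi j hj => ?_, fun i hi x hx => ?_⟩
  · simp only
    rcases cs i hi with ⟨a, b, c, d⟩ | ⟨a, b, c, d, _⟩ | ⟨a, b, c, d, _⟩ <;> omega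
  · simp only
    have e1 := h₁.2.1 i hi j hj
    have e2 := h₂.2.1 i hi j hj
    rcases cs i hi with ⟨a, b, c, d⟩ | ⟨a, b, c, d, a', b'⟩ | ⟨a, b, c, d, a', b'⟩ <;>
      rcases cs j hj with ⟨f, g, h, k⟩ | ⟨f, g, h, k, f', g'⟩ | ⟨f, g, h, k, f', g'⟩
    · simp [a, b, c, d, f, g, h, k]
    · rw [a, b, c, d, g, k]; omega
    · rw [a, b, c, d, f, h]; omega
    · rw [b, d, f, g, h, k]; omega
    · rw [b, d, g, k]; simpa using e1
    · have n1 := ne12 a g a' f'
      have n2 := ne12 c k b' g'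
      rw [b, d, f, h]
      simp only [Nat.add_zero, Nat.zero_add]
      exact ⟨fun h' => absurd h' n1, fun h' => absurd h' n2⟩
    · rw [a, c, f, g, h, k]; omega
    · have n1 := ne12 f b f' a'
      have n2 := ne12 h d g' b'
      rw [a, c, g, k]
      simp only [Nat.add_zero, Nat.zero_add]
      exact ⟨fun h' => absurd h'.symm n1, fun h' => absurd h'.symm n2⟩
    · rw [a, c, f, h]; simpa using e2
  · simp only
    have e1 := h₁.2.2.1 i hi j hj
    have e2 := h₂.2.2.1 i hi j hj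
    rcases cs i hi with ⟨a, b, c', d⟩ | ⟨a, b, c', d, a', b'⟩ | ⟨a, b, c', d, a', b'⟩ <;>
      rcases cs j hj with ⟨f, g, h, k⟩ | ⟨f, g, h, k, f', g'⟩ | ⟨f, g, h, k, f', g'⟩
    · simp [a, b, c', d]
    · simp [a, b, c', d]
    · simp [a, b, c', d]
    · simp [f, g, h, k]
    · rw [b, d, g, k]; simpa using e1
    · rw [b, d, f, h]
      simp only [Nat.add_zero, Nat.zero_add]
      rw [ajp_pos a g, ajp_pos c' k, hc _ a' _ f', hc _ b' _ g']
    · simp [f, g, h, k]
    · rw [a, c', g, k]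
      simp only [Nat.add_zero, Nat.zero_add]
      rw [ajp_symm (u₂ i), ajp_symm (v₂ i), ajp_pos f b, ajp_pos h d, hc _ f' _ a', hc _ g' _ b']
    · rw [a, c', f, h]; simpa using e2
  · simp only
    have e1 := h₁.2.2.2 i hi x hx
    have e2 := h₂.2.2.2 i hi x hx
    rcases cs i hi with ⟨a, b, c', d⟩ | ⟨a, b, c', d, a', b'⟩ | ⟨a, b, c', d, a', b'⟩
    · simp [a, b, c', d]
    · rw [b, d]; simpa using e1
    · rw [a, c']; simpa using e2

end Pool.Agent.Q322.CC
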