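import Pool.Agent.Q322.CC.Trans

/-!
# The invariant of the algorithm
-/

namespace Pool.Agent.Q322.CC

open Pool.Agent.H633R2 Pool.Agent.H633R2.Ctr

variable {M : List (List Bool)} {X : List ℕ}

/-- The bound for the number of representatives. -/
def Bd (s x : ℕ) : ℕ := 2 ^ ((2 * ((2 * 2) ^ (s + 4) * 2 ^ x)) ^ (s + 4))

theorem two_pow_le_Bd (s x : ℕ) : 2 ^ s ≤ Bd s x := by
  unfold Bd
  refine Nat.pow_le_pow_right (by omega) ?_
  have h1 : 2 ≤ 2 * ((2 * 2) ^ (s + 4) * 2 ^ x) := by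
    have : 1 ≤ (2 * 2) ^ (s + 4) * 2 ^ x := Nat.one_le_iff_ne_zero.2 (by positivity)
    omega
  have h2 := Nat.pow_le_pow_left h1 (s + 4)
  have h3 : s + 4 < 2 ^ (s + 4) := Nat.lt_two_pow_self
  omega

/-- The invariant. -/
structure Inv (M : List (List Bool)) (X : List ℕ) (s B : ℕ) (U : List ℕ) (St : List Nd) :
    Prop where
  ne : ∀ a ∈ St, a.1 ≠ []
  nd : ∀ a ∈ St, a.1.Nodup
  kd : (St.map (fun a => a.1)).Nodup
  dj : ∀ a ∈ St, ∀ b ∈ St, a.1 ≠ b.1 → ∀ v ∈ a.1, v ∉ b.1
  un : ∀ v, v ∈ U ↔ ∃ a ∈ St, v ∈ a.1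
  md : ∀ a ∈ St, ∀ b ∈ St, a.1 ≠ b.1 → ∀ x ∈ a.1, ∀ y ∈ b.1, adj false M x y = amd M a b
  rp : ∀ a ∈ St, Rp M X s a.1 a.2
  ln : ∀ a ∈ St, a.2.length ≤ B

theorem head_mem {l : List ℕ} (h : l ≠ []) : l.headD 0 ∈ l := by
  cases l with
  | nil => exact absurd rfl h
  | cons a l => simp

theorem Inv.eq_of {s B : ℕ} {U : List ℕ} {St : List Nd} (h : Inv M X s B U St) {a b : Nd}
    (ha : a ∈ St) (hb : b ∈ St) (hab : a.1 = b.1) : a = b :=
  List.inj_on_of_nodup_map h.kd ha hb hab

theorem amd_symm (a b : Nd) : amd M a b = amd M b a := by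
  unfold amd
  rw [adj_symm]

/-- The pairs of twins. -/
theorem mem_tws {St : List Nd} {p : Nd × Nd} : p ∈ tws M St ↔ p.1 ∈ St ∧ p.2 ∈ St ∧
    p.1.1 ≠ p.2.1 ∧ ∀ c ∈ St, c.1 ≠ p.1.1 → c.1 ≠ p.2.1 → amd M p.1 c = amd M p.2 c := by
  obtain ⟨a, b⟩ := p
  unfold tws
  simp only [List.mem_flatMap, List.mem_map, List.mem_filter, Prod.mk.injEq]
  constructor
  · rintro ⟨a', ha, b', ⟨hb, ht⟩, rfl, rfl⟩
    unfold twn at ht
    simp only [Bool.and_eq_true, Bool.not_eq_true', decide_eq_false_iff_not, List.all_eq_true,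
      Bool.or_eq_true, decide_eq_true_eq] at ht
    refine ⟨ha, hb, ht.1, fun c hc h1 h2 => ?_⟩
    have := (ht.2 c hc).resolve_left (fun h => h.elim h1 h2)
    simpa using this
  · rintro ⟨ha, hb, hne, h⟩
    refine ⟨a, ha, b, ⟨hb, ?_⟩, rfl, rfl⟩
    unfold twn
    simp only [Bool.and_eq_true, Bool.not_eq_true', decide_eq_false_iff_not, List.all_eq_true,
      Bool.or_eq_true, decide_eq_true_eq]
    refine ⟨hne, fun c hc => ?_⟩
    by_cases h1 : c.1 = a.1
    · exact Or.inl (Or.inl h1)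
    · by_cases h2 : c.1 = b.1
      · exact Or.inl (Or.inr h2)
      · right
        simpa using h c hc h1 h2

/-- There are twins. -/
theorem Inv.tws_ne {s B : ℕ} {U : List ℕ} {St : List Nd} (h : Inv M X s B U St)
    (hU : PFree (fun x y => adj false M x y = true) U.toFinset) (hl : 2 ≤ St.length) :
    tws M St ≠ [] := by
  classical
  set hd : Nd → ℕ := fun a => a.1.headD 0 with hhd
  have hmem : ∀ a ∈ St, hd a ∈ a.1 := fun a ha => head_mem (h.ne a ha)
  have hinj : ∀ a ∈ St, ∀ b ∈ St, hd a = hd b → a = b := by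
    intro a ha b hb hab
    by_contra hne
    have h1 : a.1 ≠ b.1 := fun h' => hne (h.eq_of ha hb h')
    exact h.dj a ha b hb h1 _ (hmem a ha) (hab ▸ hmem b hb)
  have hnd : St.Nodup := List.Nodup.of_map _ h.kd
  have hnd2 : (St.map hd).Nodup := List.Nodup.map_on hinj hnd
  have hcard : (St.map hd).toFinset.card = (St.length - 2) + 2 := by
    rw [List.toFinset_card_of_nodup hnd2, List.length_map]
    omega
  have hsub : (St.map hd).toFinset ⊆ U.toFinset := by
    intro v hv
    rw [List.mem_toFinset, List.mem_map] at hv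
    obtain ⟨a, ha, rfl⟩ := hv
    rw [List.mem_toFinset, h.un]
    exact ⟨a, ha, hmem a ha⟩
  obtain ⟨u, hu, v, hv, huv, htw⟩ := exists_twins (A := fun x y => adj false M x y = true)
    (fun x y hxy => by rw [adj_symm]; exact hxy) (fun x hx => Aj_irr x hx) _ _ hcard
    (hU.mono hsub)
  rw [List.mem_toFinset, List.mem_map] at hu hv
  obtain ⟨a, ha, rfl⟩ := hu
  obtain ⟨b, hb, rfl⟩ := hv
  have hm : (a, b) ∈ tws M St := by
    rw [mem_tws]
    refine ⟨ha, hb, fun hab => huv (by rw [h.eq_of ha hb hab]), fun c hc h1 h2 => ?_⟩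
    have h3 : hd c ≠ hd a := fun h' => h1 (by rw [hinj c hc a ha h'])
    have h4 : hd c ≠ hd b := fun h' => h2 (by rw [hinj c hc b hb h'])
    have h5 := htw (hd c) (List.mem_toFinset.2 (List.mem_map.2 ⟨c, hc, rfl⟩)) h3 h4
    unfold amd
    rw [Bool.eq_iff_iff]
    exact h5
  exact List.ne_nil_of_mem hm

theorem length_filter_add_two {α : Type} (l : List α) (p : α → Bool) {a b : α} (ha : a ∈ l)
    (hb : b ∈ l) (hab : a ≠ b) (pa : p a = false) (pb : p b = false) :
    (l.filter p).length + 2 ≤ l.length := by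
  classical
  have h1 := List.length_eq_length_filter_add (l := l) p
  have h2 : 2 ≤ (l.filter (fun x => !p x)).length := by
    have : [a, b].Subperm (l.filter (fun x => !p x)) := by
      refine List.subperm_of_subset (by simp [hab]) ?_
      intro x hx
      simp only [List.mem_cons, List.not_mem_nil, or_false] at hx
      rcases hx with rfl | rfl
      · exact List.mem_filter.2 ⟨ha, by simp [pa]⟩
      · exact List.mem_filter.2 ⟨hb, by simp [pb]⟩
    simpa using this.length_le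
  omega

/-- One step. -/
theorem Inv.step {s B cap : ℕ} {U : List ℕ} {St : List Nd} (h : Inv M X s B U St)
    (hU : ∀ v ∈ U, v < M.length) (hB : Bd s X.length ≤ B) (hcap : B ≤ cap) {p : Nd × Nd}
    (hp : p ∈ tws M St) : Inv M X s B U (mrg M X cap p.1 p.2 ::
      St.filter (fun c => !(decide (c.1 = p.1.1)) && !(decide (c.1 = p.2.1)))) ∧
    (mrg M X cap p.1 p.2 ::
      St.filter (fun c => !(decide (c.1 = p.1.1)) && !(decide (c.1 = p.2.1)))).length + 1 ≤
      St.length := by
  classical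
  obtain ⟨a, b⟩ := p
  obtain ⟨ha, hb, hab, htw⟩ := mem_tws.1 hp
  simp only at ha hb hab htw ⊢
  have hdab := h.dj a ha b hb hab
  have hnd : (a.1 ++ b.1).Nodup := by
    rw [List.nodup_append]
    refine ⟨h.nd a ha, h.nd b hb, fun x hx y hy hxy => ?_⟩
    exact hdab x hx (hxy ▸ hy)
  have hlen : (a.1 ++ b.1).length ≤ M.length := by
    have h1 : (a.1 ++ b.1).Subperm (List.range M.length) := by
      refine List.subperm_of_subset hnd ?_
      intro x hx
      rw [List.mem_range]
      refine hU x ((h.un x).2 ?_)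
      rcases List.mem_append.1 hx with h' | h'
      · exact ⟨a, ha, h'⟩
      · exact ⟨b, hb, h'⟩
    simpa using h1.length_le
  obtain ⟨m1, m2⟩ := Rp.merge hdab (h.md a ha b hb hab) (h.rp a ha) (h.rp b hb)
  have m2' : (prn M X (a.1 ++ b.1) (comb a.2 b.2)).length ≤ B := le_trans m2 hB
  have e : mrg M X cap a b = (a.1 ++ b.1, prn M X (a.1 ++ b.1) (comb a.2 b.2)) := by
    unfold mrg
    rw [List.take_of_length_le hlen, List.take_of_length_le (m2'.trans hcap)]
  rw [e]
  have hfil : ∀ c, c ∈ St.filter (fun c => !(decide (c.1 = a.1)) && !(decide (c.1 = b.1))) ↔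
      c ∈ St ∧ c.1 ≠ a.1 ∧ c.1 ≠ b.1 := by
    intro c
    rw [List.mem_filter]
    simp
  have hamd : ∀ c : Nd, amd M (a.1 ++ b.1, prn M X (a.1 ++ b.1) (comb a.2 b.2)) c =
      amd M a c := by
    intro c
    unfold amd
    have h0 := h.ne a ha
    congr 1
    simp only
    cases h1 : a.1 with
    | nil => exact absurd h1 h0
    | cons x l => simp
  have hnew : ∀ c ∈ St, c.1 ≠ a.1 → c.1 ≠ b.1 → (∀ v ∈ c.1, v ∉ a.1 ++ b.1) := by
    intro c hc h1 h2 v hv hv'
    rcases List.mem_append.1 hv' with h' | h'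
    · exact h.dj c hc a ha h1 v hv h'
    · exact h.dj c hc b hb h2 v hv h'
  have hadj : ∀ c ∈ St, c.1 ≠ a.1 → c.1 ≠ b.1 → ∀ x ∈ a.1 ++ b.1, ∀ y ∈ c.1,
      adj false M x y = amd M a c := by
    intro c hc h1 h2 x hx y hy
    rcases List.mem_append.1 hx with h' | h'
    · exact h.md a ha c hc (Ne.symm h1) x h' y hy
    · rw [h.md b hb c hc (Ne.symm h2) x h' y hy, htw c hc h1 h2]
  refine ⟨⟨?_, ?_, ?_, ?_, ?_, ?_, ?_, ?_⟩, ?_⟩
  · intro c hc
    rcases List.mem_cons.1 hc with rfl | hc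
    · simp only
      intro h0
      exact h.ne a ha (List.append_eq_nil_iff.1 h0).1
    · exact h.ne c ((hfil c).1 hc).1
  · intro c hc
    rcases List.mem_cons.1 hc with rfl | hc
    · exact hnd
    · exact h.nd c ((hfil c).1 hc).1
  · rw [List.map_cons, List.nodup_cons]
    refine ⟨?_, ?_⟩
    · intro hm
      rw [List.mem_map] at hm
      obtain ⟨c, hc, he⟩ := hm
      obtain ⟨h1, h2, h3⟩ := (hfil c).1 hc
      obtain ⟨v, hv⟩ := List.exists_mem_of_ne_nil _ (h.ne c h1)
      exact hnew c h1 h2 h3 v hv (by rw [← show c.1 = a.1 ++ b.1 from he]; exact hv)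
    · exact h.kd.sublist (List.filter_sublist.map _)
  · intro c hc d hd hcd
    rcases List.mem_cons.1 hc with rfl | hc
    · rcases List.mem_cons.1 hd with rfl | hd
      · exact absurd rfl hcd
      · obtain ⟨h1, h2, h3⟩ := (hfil d).1 hd
        intro v hv hv'
        exact hnew d h1 h2 h3 v hv' hv
    · rcases List.mem_cons.1 hd with rfl | hd
      · obtain ⟨h1, h2, h3⟩ := (hfil c).1 hc
        exact hnew c h1 h2 h3
      · exact h.dj c ((hfil c).1 hc).1 d ((hfil d).1 hd).1 hcd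
  · intro v
    rw [h.un]
    constructor
    · rintro ⟨c, hc, hv⟩
      by_cases h1 : c.1 = a.1
      · exact ⟨_, List.mem_cons_self, List.mem_append_left _ (h1 ▸ hv)⟩
      · by_cases h2 : c.1 = b.1
        · exact ⟨_, List.mem_cons_self, List.mem_append_right _ (h2 ▸ hv)⟩
        · exact ⟨c, List.mem_cons_of_mem _ ((hfil c).2 ⟨hc, h1, h2⟩), hv⟩
    · rintro ⟨c, hc, hv⟩
      rcases List.mem_cons.1 hc with rfl | hc
      · rcases List.mem_append.1 hv with h' | h'
        · exact ⟨a, ha, h'⟩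
        · exact ⟨b, hb, h'⟩
      · exact ⟨c, ((hfil c).1 hc).1, hv⟩
  · intro c hc d hd hcd x hx y hy
    rcases List.mem_cons.1 hc with rfl | hc
    · rcases List.mem_cons.1 hd with rfl | hd
      · exact absurd rfl hcd
      · obtain ⟨h1, h2, h3⟩ := (hfil d).1 hd
        rw [hamd]
        exact hadj d h1 h2 h3 x hx y hy
    · rcases List.mem_cons.1 hd with rfl | hd
      · obtain ⟨h1, h2, h3⟩ := (hfil c).1 hc
        rw [adj_symm, amd_symm, hamd]
        exact hadj c h1 h2 h3 y hy x hx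
      · exact h.md c ((hfil c).1 hc).1 d ((hfil d).1 hd).1 hcd x hx y hy
  · intro c hc
    rcases List.mem_cons.1 hc with rfl | hc
    · exact m1
    · exact h.rp c ((hfil c).1 hc).1
  · intro c hc
    rcases List.mem_cons.1 hc with rfl | hc
    · exact m2'
    · exact h.ln c ((hfil c).1 hc).1
  · rw [List.length_cons]
    have := length_filter_add_two St (fun c => !(decide (c.1 = a.1)) && !(decide (c.1 = b.1)))
      ha hb (fun h' => hab (by rw [h'])) (by simp) (by simp)
    omega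

/-- Iteration. -/
theorem Inv.iter {s B cap : ℕ} {U : List ℕ} {St : List Nd} (h : Inv M X s B U St)
    (hU : ∀ v ∈ U, v < M.length) (hP : PFree (fun x y => adj false M x y = true) U.toFinset)
    (hB : Bd s X.length ≤ B) (hcap : B ≤ cap) (j : ℕ) :
    Inv M X s B U ((stp M X cap)^[j] St) ∧ (((stp M X cap)^[j] St).length ≤ 1 ∨
      ((stp M X cap)^[j] St).length + j ≤ St.length) := by
  induction j with
  | zero => exact ⟨h, Or.inr (by simp)⟩
  | succ j ih =>
    rw [Function.iterate_succ_apply']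
    set S := (stp M X cap)^[j] St with hS
    obtain ⟨h1, h2⟩ := ih
    unfold stp
    cases ht : tws M S with
    | nil =>
      simp only [List.head?_nil, Option.elim_none]
      refine ⟨h1, ?_⟩
      by_cases h3 : 2 ≤ S.length
      · exact absurd ht (h1.tws_ne hP h3)
      · left; omega
    | cons p l =>
      simp only [List.head?_cons, Option.elim_some]
      have hp : p ∈ tws M S := by rw [ht]; simp
      obtain ⟨h3, h4⟩ := h1.step hU hB hcap hp
      refine ⟨h3, ?_⟩
      rcases h2 with h2 | h2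
      · left; omega
      · right; omega

/-- The initial state. -/
theorem inv_init {s cap B : ℕ} {U : List ℕ} (hnd : U.Nodup) (hcap : 2 ^ s ≤ cap)
    (hB : 2 ^ s ≤ B) :
    Inv M X s B U (U.map fun v => ([v], cube v cap s)) := by
  refine ⟨?_, ?_, ?_, ?_, ?_, ?_, ?_, ?_⟩
  · intro a ha
    obtain ⟨v, -, rfl⟩ := List.mem_map.1 ha
    simp
  · intro a ha
    obtain ⟨v, -, rfl⟩ := List.mem_map.1 ha
    simp
  · rw [List.map_map]
    refine List.Nodup.map ?_ hnd
    intro x y hxy
    simpa using hxy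
  · intro a ha b hb hab v hv hv'
    obtain ⟨x, -, rfl⟩ := List.mem_map.1 ha
    obtain ⟨y, -, rfl⟩ := List.mem_map.1 hb
    simp only [List.mem_singleton] at hv hv'
    exact hab (by simp only; rw [← hv, ← hv'])
  · intro v
    constructor
    · intro hv
      exact ⟨_, List.mem_map.2 ⟨v, hv, rfl⟩, by simp⟩
    · rintro ⟨a, ha, hv⟩
      obtain ⟨x, hx, rfl⟩ := List.mem_map.1 ha
      simp only [List.mem_singleton] at hv
      exact hv ▸ hx
  · intro a ha b hb _ x hx y hy
    obtain ⟨u, -, rfl⟩ := List.mem_map.1 ha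
    obtain ⟨v, -, rfl⟩ := List.mem_map.1 hb
    simp only [List.mem_singleton] at hx hy
    subst hx hy
    simp [amd]
  · intro a ha
    obtain ⟨v, -, rfl⟩ := List.mem_map.1 ha
    exact cube_rp v hcap
  · intro a ha
    obtain ⟨v, -, rfl⟩ := List.mem_map.1 ha
    exact ((cube_spec v cap s hcap).1).trans hB

end Pool.Agent.Q322.CC
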