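import Pool.Agent.Q322.CC.Inv
import Pool.Agent.H633R2.Ctr.Bridge

/-!
# Correctness of the algorithm
-/

namespace Pool.Agent.Q322.CC

open Pool.Agent.H633R2 Pool.Agent.H633R2.Ctr

variable {M : List (List Bool)}

/-- The meaning of the test. -/
theorem isq_iff {a s : ℕ → ℕ → Bool} {f : List ℕ} : isq a s f = true ↔
    P4 (fun x y => a x y = true) (fun x y => s x y = true) (fun i => f.getD i 0) := by
  unfold isq P4
  simp only [Bool.and_eq_true, Bool.not_eq_true', Bool.not_eq_true]

/-! ### The packing -/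

theorem xstp_spec (acc f : List ℕ) : (xstp M acc f = f ++ acc ∧
      isq (fun x y => adj false M x y) (fun x y => decide (x = y)) f = true ∧
      ∀ x ∈ f, x ∉ acc) ∨
    (xstp M acc f = acc ∧ (isq (fun x y => adj false M x y) (fun x y => decide (x = y)) f = true →
      ∃ x ∈ f, x ∈ acc)) := by
  unfold xstp
  cases h1 : isq (fun x y => adj false M x y) (fun x y => decide (x = y)) f with
  | false =>
    right
    simp
  | true =>
    cases h2 : f.all (fun x => !(decide (x ∈ acc))) with
    | false =>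
      right
      refine ⟨by simp, fun _ => ?_⟩
      rw [List.all_eq_false] at h2
      obtain ⟨x, hx, h3⟩ := h2
      exact ⟨x, hx, by simpa using h3⟩
    | true =>
      left
      refine ⟨by simp, rfl, fun x hx => ?_⟩
      rw [List.all_eq_true] at h2
      simpa using h2 x hx

/-- A path meets the touched vertices. -/
theorem path_meets {k : ℕ} {L : List (ℕ × ℕ)} (h : Sol4 M k L) {f : List ℕ}
    (hf : isq (fun x y => adj false M x y) (fun x y => decide (x = y)) f = true)
    (hl : f.length = 4) : ∃ x ∈ f, x ∈ tch L := by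
  by_contra hc
  push Not at hc
  rw [isq_iff] at hf
  simp only [decide_eq_true_eq] at hf
  have hE := gen_equiv L
  have hg : ∀ j < 4, f.getD j 0 ∉ tch L := by
    intro j hj
    rw [List.getD_eq_getElem _ _ (by omega)]
    exact hc _ (List.getElem_mem _)
  have hs : ∀ j < 4, ∀ z, gen L (f.getD j 0) z → f.getD j 0 = z := fun j hj z hz =>
    gen_single (hg j hj) hz
  have hne : ∀ i < 4, ∀ j < 4, adj false M (f.getD i 0) (f.getD j 0) = true →
      f.getD i 0 ≠ f.getD j 0 := by
    intro i _ j _ h1 h2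
    rw [h2] at h1
    exact Aj_irr _ h1
  have hx : ∀ i < 4, ∀ j < 4, f.getD i 0 ≠ f.getD j 0 →
      (XA false (Aj false M) (gen L) (f.getD i 0) (f.getD j 0) ↔
        adj false M (f.getD i 0) (f.getD j 0) = true) := by
    intro i hi j hj h1
    exact XA_single hE h1 (hs i hi) (hs j hj)
  obtain ⟨⟨a1, a2, a3⟩, ⟨a4, a5, a6⟩, a7, a8, a9⟩ := hf
  refine h.fr (fun i => f.getD i 0) ⟨⟨?_, ?_, ?_⟩, ⟨?_, ?_, ?_⟩, ?_, ?_, ?_⟩
  · exact (hx 0 (by omega) 1 (by omega) (hne 0 (by omega) 1 (by omega) a1)).2 a1
  · exact (hx 1 (by omega) 2 (by omega) (hne 1 (by omega) 2 (by omega) a2)).2 a2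
  · exact (hx 2 (by omega) 3 (by omega) (hne 2 (by omega) 3 (by omega) a3)).2 a3
  · exact fun h' => a4 ((hx 0 (by omega) 2 (by omega) a7).1 h')
  · exact fun h' => a5 ((hx 0 (by omega) 3 (by omega) a8).1 h')
  · exact fun h' => a6 ((hx 1 (by omega) 3 (by omega) a9).1 h')
  · exact fun h' => a7 (hs 0 (by omega) _ h')
  · exact fun h' => a8 (hs 0 (by omega) _ h')
  · exact fun h' => a9 (hs 1 (by omega) _ h')

theorem mod_fold (F : List (List ℕ)) (hF : ∀ f ∈ F, f.length = 4 ∧ ∀ x ∈ f, x < M.length) :
    ∀ acc : List ℕ, (∀ x ∈ acc, x < M.length) →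
      (∀ x ∈ F.foldl (xstp M) acc, x < M.length) ∧
      (∀ x ∈ acc, x ∈ F.foldl (xstp M) acc) ∧
      (∀ f ∈ F, isq (fun x y => adj false M x y) (fun x y => decide (x = y)) f = true →
        ∃ x ∈ f, x ∈ F.foldl (xstp M) acc) ∧
      (∀ (k : ℕ) (L : List (ℕ × ℕ)), Sol4 M k L →
        acc.length ≤ 4 * (acc.toFinset ∩ tch L).card →
        (F.foldl (xstp M) acc).length ≤ 4 * ((F.foldl (xstp M) acc).toFinset ∩ tch L).card) := by
  induction F with
  | nil =>
    intro acc hacc
    exact ⟨hacc, fun x hx => hx, fun f hf => by simp at hf, fun _ _ _ h => h⟩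
  | cons f F ih =>
    intro acc hacc
    rw [List.foldl_cons]
    have hf := hF f (by simp)
    have hF' : ∀ g ∈ F, g.length = 4 ∧ ∀ x ∈ g, x < M.length := fun g hg =>
      hF g (List.mem_cons_of_mem _ hg)
    rcases xstp_spec (M := M) acc f with ⟨e, h1, h2⟩ | ⟨e, h1⟩
    · rw [e]
      obtain ⟨i1, i2, i3, i4⟩ := ih hF' (f ++ acc) (by
        intro x hx
        rcases List.mem_append.1 hx with h | h
        · exact hf.2 x h
        · exact hacc x h)
      refine ⟨i1, fun x hx => i2 x (List.mem_append_right _ hx), fun g hg hgq => ?_,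
        fun k L hL h3 => i4 k L hL ?_⟩
      · rcases List.mem_cons.1 hg with rfl | hg
        · obtain ⟨x, hx⟩ := List.exists_mem_of_length_pos (show 0 < g.length by omega)
          exact ⟨x, hx, i2 x (List.mem_append_left _ hx)⟩
        · exact i3 g hg hgq
      · obtain ⟨x, hx, hxt⟩ := path_meets hL h1 hf.1
        have h4 : (acc.toFinset ∩ tch L).card + 1 ≤ ((f ++ acc).toFinset ∩ tch L).card := by
          have h5 : x ∉ acc.toFinset ∩ tch L := fun h => h2 x hx
            (List.mem_toFinset.1 (Finset.mem_inter.1 h).1)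
          rw [← Finset.card_insert_of_notMem h5]
          refine Finset.card_le_card fun y hy => ?_
          rw [Finset.mem_insert] at hy
          rcases hy with rfl | hy
          · exact Finset.mem_inter.2 ⟨List.mem_toFinset.2 (List.mem_append_left _ hx), hxt⟩
          · rw [Finset.mem_inter, List.mem_toFinset] at hy
            exact Finset.mem_inter.2 ⟨List.mem_toFinset.2 (List.mem_append_right _ hy.1), hy.2⟩
        rw [List.length_append, hf.1]
        omega
    · rw [e]
      obtain ⟨i1, i2, i3, i4⟩ := ih hF' acc hacc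
      refine ⟨i1, i2, fun g hg hgq => ?_, i4⟩
      rcases List.mem_cons.1 hg with rfl | hg
      · obtain ⟨x, hx, hxa⟩ := h1 hgq
        exact ⟨x, hx, i2 x hxa⟩
      · exact i3 g hg hgq

theorem mod_spec (M : List (List Bool)) : (∀ x ∈ mod M, x < M.length) ∧
    (∀ f : List ℕ, f.length = 4 → (∀ x ∈ f, x < M.length) →
      isq (fun x y => adj false M x y) (fun x y => decide (x = y)) f = true →
        ∃ x ∈ f, x ∈ mod M) ∧
    (∀ (k : ℕ) (L : List (ℕ × ℕ)), Sol4 M k L → (mod M).length ≤ 8 * k) := by
  obtain ⟨h1, _, h3, h4⟩ := mod_fold (M := M) (tuples 4 (List.range M.length))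
    (fun f hf => ⟨(mem_tuples.1 hf).1, fun x hx => List.mem_range.1 ((mem_tuples.1 hf).2 x hx)⟩)
    [] (by simp)
  refine ⟨h1, fun f hf hlt hq => h3 f (mem_tuples.2 ⟨hf, fun x hx => List.mem_range.2 (hlt x hx)⟩)
    hq, fun k L hL => ?_⟩
  have h5 := h4 k L hL (by simp)
  have h6 : ((mod M).toFinset ∩ tch L).card ≤ 2 * k := by
    refine (Finset.card_le_card Finset.inter_subset_right).trans ((card_tch L).trans ?_)
    have := hL.len
    omega
  show (mod M).length ≤ 8 * k
  have h7 : (mod M).length ≤ 4 * ((mod M).toFinset ∩ tch L).card := h5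
  omega

theorem mem_rst {x : ℕ} : x ∈ rst M ↔ x < M.length ∧ x ∉ mod M := by
  unfold rst
  rw [List.mem_filter, List.mem_range]
  simp

theorem rst_free (M : List (List Bool)) :
    PFree (fun x y => adj false M x y = true) (rst M).toFinset := by
  intro a ha b hb c hc d hd h1 h2 h3 h4 h5 h6 h7 h8 h9
  rw [List.mem_toFinset, mem_rst] at ha hb hc hd
  obtain ⟨x, hx, hxm⟩ := (mod_spec M).2.1 [a, b, c, d] rfl (by
    intro x hx
    simp only [List.mem_cons, List.not_mem_nil, or_false] at hx
    rcases hx with rfl | rfl | rfl | rfl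
    · exact ha.1
    · exact hb.1
    · exact hc.1
    · exact hd.1) (by
    rw [isq_iff]
    simp only [decide_eq_true_eq]
    exact ⟨⟨h1, h2, h3⟩, ⟨h4, h5, h6⟩, h7, h8, h9⟩)
  simp only [List.mem_cons, List.not_mem_nil, or_false] at hx
  rcases hx with rfl | rfl | rfl | rfl
  · exact ha.2 hxm
  · exact hb.2 hxm
  · exact hc.2 hxm
  · exact hd.2 hxm

/-! ### The test -/

theorem chk4_iff {k : ℕ} {L : List (ℕ × ℕ)} : chk4 M k L = true ↔ Sol4 M k L := by
  unfold chk4
  rw [Bool.and_eq_true, Bool.and_eq_true, Bool.not_eq_true', ← Bool.not_eq_true,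
    decide_eq_true_eq, List.all_eq_true]
  have key : (∀ e ∈ L, e.1 < M.length ∧ e.2 < M.length) →
      (((tuples 4 (List.range M.length)).any (fun f => isq (fun x y => xad false M
        (labs M.length L) x y) (fun x y => sam (labs M.length L) x y) f)) = true ↔
        ∃ f : ℕ → ℕ, P4 (XA false (Aj false M) (gen L)) (gen L) f) := by
    intro hL
    rw [List.any_eq_true]
    constructor
    · rintro ⟨f, hf, hq⟩
      rw [mem_tuples] at hf
      rw [isq_iff] at hq
      have hlt : ∀ j < 4, f.getD j 0 < M.length := by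
        intro j hj
        rw [List.getD_eq_getElem _ _ (by omega)]
        exact List.mem_range.1 (hf.2 _ (List.getElem_mem _))
      refine ⟨fun i => f.getD i 0, ?_⟩
      unfold P4 at hq ⊢
      simp only [xad_iff hL (hlt 0 (by omega)) (hlt 1 (by omega)),
        xad_iff hL (hlt 1 (by omega)) (hlt 2 (by omega)),
        xad_iff hL (hlt 2 (by omega)) (hlt 3 (by omega)),
        xad_iff hL (hlt 0 (by omega)) (hlt 2 (by omega)),
        xad_iff hL (hlt 0 (by omega)) (hlt 3 (by omega)),
        xad_iff hL (hlt 1 (by omega)) (hlt 3 (by omega)),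
        sam_iff hL (hlt 0 (by omega)) (hlt 2 (by omega)),
        sam_iff hL (hlt 0 (by omega)) (hlt 3 (by omega)),
        sam_iff hL (hlt 1 (by omega)) (hlt 3 (by omega))] at hq
      exact hq
    · rintro ⟨f, hf⟩
      have hlt := P4.lt hL hf
      refine ⟨(List.range 4).map f, mem_tuples.2 ⟨by simp, fun x hx => ?_⟩, ?_⟩
      · obtain ⟨j, hj, rfl⟩ := List.mem_map.1 hx
        exact List.mem_range.2 (hlt j (List.mem_range.1 hj))
      · rw [isq_iff]
        have hf' : P4 (XA false (Aj false M) (gen L)) (gen L)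
            (fun i => ((List.range 4).map f).getD i 0) := by
          refine P4.congr (fun j hj => ?_) hf
          rw [List.getD_eq_getElem _ _ (by simpa using hj)]
          simp
        have hlt' : ∀ j < 4, ((List.range 4).map f).getD j 0 < M.length := by
          intro j hj
          rw [List.getD_eq_getElem _ _ (by simpa using hj)]
          simpa using hlt j hj
        unfold P4 at hf' ⊢
        simp only [xad_iff hL (hlt' 0 (by omega)) (hlt' 1 (by omega)),
          xad_iff hL (hlt' 1 (by omega)) (hlt' 2 (by omega)),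
          xad_iff hL (hlt' 2 (by omega)) (hlt' 3 (by omega)),
          xad_iff hL (hlt' 0 (by omega)) (hlt' 2 (by omega)),
          xad_iff hL (hlt' 0 (by omega)) (hlt' 3 (by omega)),
          xad_iff hL (hlt' 1 (by omega)) (hlt' 3 (by omega)),
          sam_iff hL (hlt' 0 (by omega)) (hlt' 2 (by omega)),
          sam_iff hL (hlt' 0 (by omega)) (hlt' 3 (by omega)),
          sam_iff hL (hlt' 1 (by omega)) (hlt' 3 (by omega))]
        exact hf'
  constructor
  · rintro ⟨⟨h1, h2⟩, h3⟩
    have hL : ∀ e ∈ L, e.1 < M.length ∧ e.2 < M.length := fun e he =>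
      ⟨(Aj_iff.1 (h2 e he)).1, (Aj_iff.1 (h2 e he)).2.1⟩
    rw [key hL] at h3
    exact ⟨h1, h2, fun f hf => h3 ⟨f, hf⟩⟩
  · intro h
    refine ⟨⟨h.len, h.ed⟩, ?_⟩
    rw [key h.lt]
    rintro ⟨f, hf⟩
    exact h.fr f hf

/-! ### Correctness -/

/-- The bound for the size of the candidate set. -/
def Wb (k : ℕ) : ℕ := 8 * k + Bd (2 * k) (8 * k) * (2 * k)

theorem Bd_mono {s x x' : ℕ} (h : x ≤ x') : Bd s x ≤ Bd s x' := by
  unfold Bd
  refine Nat.pow_le_pow_right (by omega) (Nat.pow_le_pow_left ?_ _)
  refine Nat.mul_le_mul_left _ (Nat.mul_le_mul_left _ (Nat.pow_le_pow_right (by omega) h))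

theorem sum_le_mul {T : List (List ℕ)} {s : ℕ} (h : ∀ τ ∈ T, τ.length = s) :
    T.flatten.length = T.length * s := by
  induction T with
  | nil => simp
  | cons τ T ih =>
    rw [List.flatten_cons, List.length_append, ih (fun t ht => h t (List.mem_cons_of_mem _ ht)),
      h τ (by simp), List.length_cons]
    ring

/-- The algorithm is correct. -/
theorem alg4_spec (M : List (List Bool)) (k cap cap' : ℕ) (hcap : Bd (2 * k) (8 * k) ≤ cap)
    (hcap' : ((Wb k) ^ 2 + 1) ^ k ≤ cap') :
    alg4 M k cap cap' = true ↔ ∃ L, Sol4 M k L := by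
  unfold alg4
  rw [List.any_eq_true]
  constructor
  · rintro ⟨L, _, hL⟩
    exact ⟨L, chk4_iff.1 hL⟩
  · rintro ⟨L, hL⟩
    obtain ⟨m1, m2, m3⟩ := mod_spec M
    have hm := m3 k L hL
    have h2s : 2 ^ (2 * k) ≤ cap := (two_pow_le_Bd _ _).trans hcap
    have hinit := inv_init (M := M) (X := (mod M).map (fun v => v + 1)) (s := 2 * k) (cap := cap)
      (B := Bd (2 * k) (8 * k)) (U := rst M) (List.nodup_range.filter _) h2s (two_pow_le_Bd _ _)
    obtain ⟨I1, I2⟩ := hinit.iter (cap := cap) (fun v hv => (mem_rst.1 hv).1) (rst_free M)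
      (Bd_mono (by rw [List.length_map]; exact hm)) hcap M.length
    have hrun : (stp M ((mod M).map (fun v => v + 1)) cap)^[M.length]
      ((rst M).map fun v => ([v], cube v cap (2 * k))) = run M k cap := rfl
    rw [hrun] at I1 I2
    have hlen1 : (run M k cap).length ≤ 1 := by
      rcases I2 with h | h
      · exact h
      · rw [List.length_map] at h
        have h1 : (rst M).length ≤ M.length := by
          unfold rst
          refine (List.length_filter_le _ _).trans ?_
          rw [List.length_range]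
        omega
    -- the size of the candidate set
    have hcand : (cand M k cap).length ≤ Wb k := by
      unfold cand Wb
      rw [List.length_append, List.length_map]
      refine Nat.add_le_add hm ?_
      cases hr : run M k cap with
      | nil => simp
      | cons a l =>
        have hl : l = [] := by
          rw [hr] at hlen1
          simpa using hlen1
        subst hl
        have ha : a ∈ run M k cap := by rw [hr]; simp
        rw [List.flatMap_cons, List.flatMap_nil, List.append_nil,
          sum_le_mul (fun τ hτ => ((I1.rp a ha).ok τ hτ).1)]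
        exact Nat.mul_le_mul_right _ (I1.ln a ha)
    have main : ∃ L' : List (ℕ × ℕ), Sol4 M k L' ∧ ∀ x ∈ tch L', x ∈ cand M k cap := by
      cases hr : run M k cap with
      | nil =>
        refine ⟨L, hL, fun x hx => ?_⟩
        unfold cand
        refine List.mem_append_left _ ?_
        by_contra hxm
        have hxl : x < M.length := by
          obtain ⟨e, he, h | h⟩ := mem_tch.1 hx
          · rw [h]; exact (hL.lt e he).1
          · rw [h]; exact (hL.lt e he).2
        obtain ⟨a, ha, -⟩ := (I1.un x).1 (mem_rst.2 ⟨hxl, hxm⟩)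
        rw [hr] at ha
        simp at ha
      | cons a l =>
        have hl : l = [] := by
          rw [hr] at hlen1
          simpa using hlen1
        subst hl
        have ha : a ∈ run M k cap := by rw [hr]; simp
        have hun : ∀ v, v ∈ rst M ↔ v ∈ a.1 := by
          intro v
          rw [I1.un, hr]
          simp
        obtain ⟨L', h1, h2⟩ := exchange4 hL (R := a.1) (Y := mod M) (by
          intro v hv
          by_cases h : v ∈ mod M
          · exact Or.inr h
          · exact Or.inl ((hun v).1 (mem_rst.2 ⟨hv, h⟩))) (by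
          intro v hv
          exact (mem_rst.1 ((hun v).2 hv)).2) (I1.rp a ha)
        refine ⟨L', h1, fun x hx => ?_⟩
        unfold cand
        rw [List.mem_append]
        rcases h2 x hx with h | ⟨τ, hτ, p, hp, rfl⟩
        · exact Or.inl h
        · right
          refine List.mem_map.2 ⟨p, List.mem_flatMap.2 ⟨a, ha, List.mem_flatten.2 ⟨τ, hτ, hp⟩⟩, rfl⟩
    obtain ⟨L', h1, h2⟩ := main
    exact ⟨L', mem_enu_of hcand hcap' h1.len h1.ed h2, chk4_iff.2 h1⟩

/-! ### The translation of the problem -/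

open SimpleGraph hiding Free

theorem free_p4 {M : List (List Bool)} {F : Set (Sym2 (Fin M.length))} {L : List (ℕ × ℕ)}
    (h : Ctr.Rep F L) : Free (pathGraph 4) (contract (graphOf M) F) ↔
      ∀ f : ℕ → ℕ, ¬ P4 (XA false (Aj false M) (gen L)) (gen L) f := by
  unfold Free
  rw [← not_nonempty_iff, h.emb_iff, ← not_exists, not_iff_not]
  have hL := h.lt
  have hE := gen_equiv L
  constructor
  · rintro ⟨f, hf⟩
    refine ⟨fun i => if hi : i < 4 then f ⟨i, hi⟩ else 0, ?_⟩
    unfold P4
    simp only [show (0 : ℕ) < 4 by omega, show (1 : ℕ) < 4 by omega, show (2 : ℕ) < 4 by omega,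
      show (3 : ℕ) < 4 by omega, dif_pos]
    have a01 := hf 0 1 (by decide)
    have a12 := hf 1 2 (by decide)
    have a23 := hf 2 3 (by decide)
    have a02 := hf 0 2 (by decide)
    have a03 := hf 0 3 (by decide)
    have a13 := hf 1 3 (by decide)
    rw [pathGraph_adj] at a01 a12 a23 a02 a03 a13
    refine ⟨⟨a01.2.2 (by decide), a12.2.2 (by decide), a23.2.2 (by decide)⟩,
      ⟨fun h => absurd (a02.2.1 h) (by decide), fun h => absurd (a03.2.1 h) (by decide),
        fun h => absurd (a13.2.1 h) (by decide)⟩, a02.1, a03.1, a13.1⟩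
  · rintro ⟨f, hf⟩
    have hlt := P4.lt hL hf
    obtain ⟨⟨a01, a12, a23⟩, ⟨a02, a03, a13⟩, b02, b03, b13⟩ := hf
    have hs : ∀ {x y : ℕ}, XA false (Aj false M) (gen L) x y →
        XA false (Aj false M) (gen L) y x := fun h => h.symm' Aj_symm hE
    refine ⟨fun i => ⟨f i, hlt i i.2⟩, fun i j hij => ?_⟩
    rw [pathGraph_adj]
    simp only
    have key : ∀ i j : Fin 4, i < j → ¬ gen L (f i) (f j) ∧
        (XA false (Aj false M) (gen L) (f i) (f j) ↔ (i : ℕ) + 1 = j ∨ (j : ℕ) + 1 = i) := by
      intro i j hij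
      fin_cases i <;> fin_cases j <;> simp_all
      · exact a01.1
      · exact a12.1
      · exact a23.1
    rcases lt_or_gt_of_ne hij with h1 | h1
    · exact key i j h1
    · obtain ⟨h2, h3⟩ := key j i h1
      refine ⟨fun h => h2 (hE.symm h), ?_⟩
      rw [show (XA false (Aj false M) (gen L) (f i) (f j) ↔
        XA false (Aj false M) (gen L) (f j) (f i)) from ⟨hs, hs⟩, h3]
      exact Or.comm

/-- The translation of the problem. -/
theorem sol4_iff (x : List (List Bool) × ℕ) :
    (∃ L, Sol4 x.1 x.2 L) ↔ FreeContraction (pathGraph 4) x := by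
  classical
  obtain ⟨M, k⟩ := x
  constructor
  · rintro ⟨L, hL⟩
    have hl := hL.lt
    let q : {e // e ∈ L} → Sym2 (Fin M.length) := fun e =>
      s(⟨e.1.1, (hl e.1 e.2).1⟩, ⟨e.1.2, (hl e.1 e.2).2⟩)
    let F : Finset (Sym2 (Fin M.length)) := (L.attach.map q).toFinset
    have hmem : ∀ p, p ∈ F ↔ ∃ e : {e // e ∈ L}, q e = p := by
      intro p
      simp only [F, List.mem_toFinset, List.mem_map, List.mem_attach, true_and]
    have hne : ∀ e ∈ L, e.1 ≠ e.2 := fun e he => (Aj_iff.1 (hL.ed e he)).2.2.1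
    have hR : Ctr.Rep (F : Set (Sym2 (Fin M.length))) L := by
      refine ⟨fun u v huv _ => ?_, fun e he => ?_⟩
      · obtain ⟨e, he⟩ := (hmem _).1 huv
        have h2 : gen L e.1.1 e.1.2 := Relation.EqvGen.rel _ _ e.2
        simp only [q] at he
        rw [Sym2.eq_iff] at he
        rcases he with ⟨h3, h4⟩ | ⟨h3, h4⟩
        · rw [← h3, ← h4]
          exact h2
        · rw [← h3, ← h4]
          exact (gen_equiv _).symm h2
      · refine ⟨⟨e.1, (hl e he).1⟩, ⟨e.2, (hl e he).2⟩, rfl, (hmem _).2 ⟨⟨e, he⟩, rfl⟩, fun h => ?_⟩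
        exact hne e he (congrArg Fin.val h)
    refine ⟨F, ?_, ?_, (free_p4 hR).2 hL.fr⟩
    · intro p hp
      obtain ⟨e, rfl⟩ := (hmem p).1 hp
      rw [mem_edgeSet, adj_iff]
      exact hL.ed _ e.2
    · refine (List.toFinset_card_le _).trans ?_
      rw [List.length_map, List.length_attach]
      exact hL.len
  · rintro ⟨F, hF, hk, h1⟩
    obtain ⟨L, hR, hlen⟩ := exists_rep F (fun e he => (graphOf M).not_isDiag_of_mem_edgeSet (hF he))
    refine ⟨L, by omega, fun e he => ?_, (free_p4 hR).1 h1⟩
    obtain ⟨u, v, rfl, huv, _⟩ := hR.ofL e he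
    exact (adj_iff M u v).1 (hF huv)

end Pool.Agent.Q322.CC
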