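import Pool.Agent.Q322.CC.Main
import Pool.Agent.H633R2.Ctr.AlgFpt

/-!
# The algorithm runs in polynomial time in the size of the padded input
-/

namespace Pool.Agent.NPC.H633

open Pool.Agent.H633R2 Pool.Agent.H633R2.Ctr Pool.Agent.Q322.CC

section

variable {α β : Type} [TEnc α] [TEnc β]

variable {M : α → List (List Bool)} {X m σ τ u : α → List ℕ} {p q : α → ℕ}

theorem poly_ajp (hM : Poly M) (hp : Poly p) (hq : Poly q) :
    Poly (fun a => ajp (M a) (p a) (q a)) := by
  unfold ajp
  exact Poly.and (Poly.not (Poly.decide_eq hp (Poly.const 0))) (Poly.and (Poly.not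
    (Poly.decide_eq hq (Poly.const 0))) (poly_adj false hM (Poly.sub hp (Poly.const 1))
      (Poly.sub hq (Poly.const 1))))

theorem poly_pat (hM : Poly M) (hX : Poly X) (hu : Poly u) :
    Poly (fun a => pat (M a) (X a) (u a)) := by
  unfold pat
  refine Poly.map (F := fun a p => (decide (p = 0), (u a).map (fun q => (decide (p = q),
    ajp (M a) p q)), (X a).map (fun x => ajp (M a) p x))) hu (Poly.pair (Poly.decide_eq p2
      (Poly.const 0)) (Poly.pair ?_ ?_))
  · exact Poly.map (α := α × ℕ) (F := fun r q => (decide (r.2 = q), ajp (M r.1) r.2 q))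
      (hu.comp p1) (Poly.pair (Poly.decide_eq (p2.comp p1) p2)
        (poly_ajp (hM.comp (p1.comp p1)) (p2.comp p1) p2))
  · exact Poly.map (α := α × ℕ) (F := fun r x => ajp (M r.1) r.2 x)
      (hX.comp p1) (poly_ajp (hM.comp (p1.comp p1)) (p2.comp p1) p2)

theorem poly_prof (hM : Poly M) (hX : Poly X) (hm : Poly m) (hσ : Poly σ) :
    Poly (fun a => prof (M a) (X a) (m a) (σ a)) := by
  unfold prof
  refine Poly.map (F := fun a w => pat (M a) (X a) (σ a ++ w)) (poly_tuples 4
    (Poly.cons (Poly.const 0) (Poly.map (F := fun _ v => v + 1) hm (Poly.add p2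
      (Poly.const 1))))) ?_
  exact poly_pat (α := α × List ℕ) (M := fun r => M r.1) (X := fun r => X r.1)
    (u := fun r => σ r.1 ++ r.2) (hM.comp p1) (hX.comp p1) (Poly.append (hσ.comp p1) p2)

theorem poly_sub [DecidableEq β] {A B : α → List β} (hA : Poly A) (hB : Poly B) :
    Poly (fun a => sub (A a) (B a)) := by
  unfold sub
  exact Poly.all (p := fun a x => decide (x ∈ B a)) hA (Poly.decide_mem p2 (hB.comp p1))

theorem poly_eqv (hM : Poly M) (hX : Poly X) (hm : Poly m) (hσ : Poly σ) (hτ : Poly τ) :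
    Poly (fun a => eqv (M a) (X a) (m a) (σ a) (τ a)) := by
  unfold eqv
  have h1 := poly_prof hM hX hm hσ
  have h2 := poly_prof hM hX hm hτ
  exact Poly.and (poly_sub h1 h2) (poly_sub h2 h1)

theorem poly_pstep (hM : Poly M) (hX : Poly X) (hm : Poly m) {acc : α → List (List ℕ)}
    (hacc : Poly acc) (hσ : Poly σ) :
    Poly (fun a => Q322.CC.pstep (M a) (X a) (m a) (acc a) (σ a)) := by
  unfold Q322.CC.pstep
  refine Poly.cond ?_ hacc (Poly.cons hσ hacc)
  refine Poly.any (p := fun a τ => eqv (M a) (X a) (m a) (σ a) τ) hacc ?_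
  exact poly_eqv (hM.comp p1) (hX.comp p1) (hm.comp p1) (hσ.comp p1) p2

theorem poly_prn (hM : Poly M) (hX : Poly X) (hm : Poly m) {T : α → List (List ℕ)}
    (hT : Poly T) : Poly (fun a => prn (M a) (X a) (m a) (T a)) := by
  unfold prn
  obtain ⟨r, hr⟩ := hT.sz_le
  have key : ∀ a, ∀ (l U : List (List ℕ)), sz (l.foldl (Q322.CC.pstep (M a) (X a) (m a)) U) ≤
      sz l + sz U := by
    intro a l
    induction l with
    | nil => intro U; simp
    | cons v l ih =>
      intro U
      rw [List.foldl_cons]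
      refine (ih _).trans ?_
      have : sz (Q322.CC.pstep (M a) (X a) (m a) U v) ≤ sz U + sz v + 1 := by
        unfold Q322.CC.pstep
        cases (U.any (fun τ => eqv (M a) (X a) (m a) v τ))
        · simp only [cond_false, sz_list_cons]; omega
        · simp only [cond_true]; omega
      simp only [sz_list_cons]
      omega
  refine Poly.foldl (l := T) (s := fun _ => ([] : List (List ℕ)))
    (F := fun a => Q322.CC.pstep (M a) (X a) (m a)) hT (Poly.const _) ?_ (r + Polynomial.C 1) ?_
  · exact poly_pstep (hM.comp p1) (hX.comp p1) (hm.comp p1) (p1.comp p2) (p2.comp p2)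
  · intro a k _
    refine (key a _ _).trans ?_
    have h1 := Poly.sz_take_le (T a) k
    have h2 := hr a
    simp only [sz_list_nil, Polynomial.eval_add, Polynomial.eval_C]
    omega

theorem poly_dsj (hσ : Poly σ) (hτ : Poly τ) : Poly (fun a => dsj (σ a) (τ a)) := by
  unfold dsj
  refine Poly.all (p := fun _ (r : ℕ × ℕ) => decide (r.1 = 0) || decide (r.2 = 0))
    (Poly.zip hσ hτ) ?_
  exact Poly.or (Poly.decide_eq (p1.comp p2) (Poly.const 0))
    (Poly.decide_eq (p2.comp p2) (Poly.const 0))

theorem poly_addl (hσ : Poly σ) (hτ : Poly τ) : Poly (fun a => addl (σ a) (τ a)) := by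
  unfold addl
  exact Poly.map (F := fun _ (r : ℕ × ℕ) => r.1 + r.2) (Poly.zip hσ hτ)
    (Poly.add (p1.comp p2) (p2.comp p2))

theorem poly_comb {S T : α → List (List ℕ)} (hS : Poly S) (hT : Poly T) :
    Poly (fun a => comb (S a) (T a)) := by
  unfold comb
  refine Poly.flatMap (F := fun a σ => ((T a).filter (fun τ => dsj σ τ)).map fun τ =>
    addl σ τ) hS ?_
  refine Poly.map (α := α × List ℕ) (F := fun r τ => addl r.2 τ) ?_
    (poly_addl (p2.comp p1) p2)
  exact Poly.filter (α := α × List ℕ) (p := fun r τ => dsj r.2 τ) (hT.comp p1)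
    (poly_dsj (p2.comp p1) p2)

variable {A B : α → Nd} {cap s : α → ℕ} {St : α → List Nd}

theorem poly_mrg (hM : Poly M) (hX : Poly X) (hcap : UPoly cap) (hA : Poly A) (hB : Poly B) :
    Poly (fun a => mrg (M a) (X a) (cap a) (A a) (B a)) := by
  unfold mrg
  have h1 : Poly (fun a => (A a).1 ++ (B a).1) := Poly.append (Poly.fst hA) (Poly.fst hB)
  exact Poly.pair (poly_takeU h1 (UPoly.length hM))
    (poly_takeU (poly_prn hM hX h1 (poly_comb (Poly.snd hA) (Poly.snd hB))) hcap)

theorem poly_headD {l : α → List ℕ} (hl : Poly l) : Poly (fun a => (l a).headD 0) :=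
  (Poly.head?_getD hl 0).congr fun a => by cases l a <;> rfl

theorem poly_amd (hM : Poly M) (hA : Poly A) (hB : Poly B) :
    Poly (fun a => amd (M a) (A a) (B a)) := by
  unfold amd
  exact poly_adj false hM (poly_headD (Poly.fst hA)) (poly_headD (Poly.fst hB))

theorem poly_twn (hM : Poly M) (hS : Poly St) (hA : Poly A) (hB : Poly B) :
    Poly (fun a => twn (M a) (St a) (A a) (B a)) := by
  unfold twn
  refine Poly.and (Poly.not (Poly.decide_eq (Poly.fst hA) (Poly.fst hB))) ?_
  refine Poly.all (p := fun a c => (decide (c.1 = (A a).1) || decide (c.1 = (B a).1)) ||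
    !(amd (M a) (A a) c ^^ amd (M a) (B a) c)) hS ?_
  have hc : Poly (fun r : α × Nd => r.2) := p2
  refine Poly.or (Poly.or (Poly.decide_eq (Poly.fst hc) (Poly.fst (hA.comp p1)))
    (Poly.decide_eq (Poly.fst hc) (Poly.fst (hB.comp p1)))) (Poly.not (Poly.xor ?_ ?_))
  · exact poly_amd (hM.comp p1) (hA.comp p1) hc
  · exact poly_amd (hM.comp p1) (hB.comp p1) hc

theorem poly_tws (hM : Poly M) (hS : Poly St) : Poly (fun a => tws (M a) (St a)) := by
  unfold tws
  refine Poly.flatMap (F := fun a x => ((St a).filter (fun b => twn (M a) (St a) x b)).map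
    fun b => (x, b)) hS ?_
  refine Poly.map (α := α × Nd) (F := fun r b => (r.2, b)) ?_ (Poly.pair (p2.comp p1) p2)
  refine Poly.filter (α := α × Nd) (p := fun r b => twn (M r.1) (St r.1) r.2 b) (hS.comp p1) ?_
  exact poly_twn (hM.comp (p1.comp p1)) (hS.comp (p1.comp p1)) (p2.comp p1) p2

theorem poly_stp (hM : Poly M) (hX : Poly X) (hcap : UPoly cap) (hS : Poly St) :
    Poly (fun a => stp (M a) (X a) (cap a) (St a)) := by
  unfold stp
  refine (Poly.optCases (o := fun a => (tws (M a) (St a)).head?) (g := St)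
    (h := fun a p => mrg (M a) (X a) (cap a) p.1 p.2 :: (St a).filter (fun c =>
      !(decide (c.1 = p.1.1)) && !(decide (c.1 = p.2.1)))) (Poly.head? (poly_tws hM hS)) hS
    ?_).congr fun a => ?_
  · refine Poly.cons (poly_mrg (hM.comp p1) (hX.comp p1) (hcap.comp p1) (p1.comp p2)
      (p2.comp p2)) ?_
    refine Poly.filter (α := α × (Nd × Nd)) (p := fun r c => !(decide (c.1 = r.2.1.1)) &&
      !(decide (c.1 = r.2.2.1))) (hS.comp p1) ?_
    have hc : Poly (fun r : (α × (Nd × Nd)) × Nd => r.2) := p2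
    have hp : Poly (fun r : (α × (Nd × Nd)) × Nd => r.1.2) := p2.comp p1
    exact Poly.and (Poly.not (Poly.decide_eq (Poly.fst hc) (Poly.fst (Poly.fst hp))))
      (Poly.not (Poly.decide_eq (Poly.fst hc) (Poly.fst (Poly.snd hp))))
  · cases (tws (M a) (St a)).head? <;> rfl

/-! ### Sizes -/

/-- A bound for the size of numbers. -/
def zn (n : ℕ) : ℕ := 2 * (4 * n + 1)

theorem sz_le_zn {c n : ℕ} (h : c ≤ n) : sz c ≤ zn n := by
  unfold zn
  have e1 := sz_nat_mono_le h
  have e2 := sz_nat_le n
  have e3 := Poly.size_le_self n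
  omega

/-- Families of bounded size. -/
def FB (n s c : ℕ) (T : List (List ℕ)) : Prop :=
  T.length ≤ c ∧ ∀ σ ∈ T, σ.length ≤ s ∧ ∀ p ∈ σ, p ≤ n

theorem FB.size {n s c : ℕ} {T : List (List ℕ)} (h : FB n s c T) :
    sz T ≤ c * ((s * (zn n + 1) + 1) + 1) + 1 := by
  refine (sz_le_length_mul T (s * (zn n + 1) + 1) fun σ hσ => ?_).trans
    (Nat.add_le_add_right (Nat.mul_le_mul_right _ h.1) 1)
  have h1 := h.2 σ hσ
  exact (sz_le_length_mul σ (zn n) fun p hp => sz_le_zn (h1.2 p hp)).trans
    (Nat.add_le_add_right (Nat.mul_le_mul_right _ h1.1) 1)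

/-- States of bounded size. -/
def SB (n s c l : ℕ) (S : List Nd) : Prop :=
  S.length ≤ l ∧ ∀ a ∈ S, (a.1.length ≤ n + 1 ∧ ∀ p ∈ a.1, p ≤ n) ∧ FB n s c a.2

theorem SB.size {n s c l : ℕ} {S : List Nd} (h : SB n s c l S) :
    sz S ≤ l * ((((n + 1) * (zn n + 1) + 1) + (c * ((s * (zn n + 1) + 1) + 1) + 1) + 1) + 1) +
      1 := by
  refine (sz_le_length_mul S (((n + 1) * (zn n + 1) + 1) + (c * ((s * (zn n + 1) + 1) + 1) + 1)
    + 1) fun a ha => ?_).trans (Nat.add_le_add_right (Nat.mul_le_mul_right _ h.1) 1)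
  obtain ⟨h1, h2⟩ := h.2 a ha
  have h3 := h2.size
  have h4 : sz a.1 ≤ (n + 1) * (zn n + 1) + 1 :=
    (sz_le_length_mul a.1 (zn n) fun p hp => sz_le_zn (h1.2 p hp)).trans
      (Nat.add_le_add_right (Nat.mul_le_mul_right _ h1.1) 1)
  obtain ⟨x, y⟩ := a
  rw [sz_pair]
  simp only at h3 h4
  omega

theorem addl_bound {n s : ℕ} {u v : List ℕ} (hu : u.length ≤ s ∧ ∀ p ∈ u, p ≤ n)
    (hv : v.length ≤ s ∧ ∀ p ∈ v, p ≤ n) (hd : dsj u v = true) :
    (addl u v).length ≤ s ∧ ∀ p ∈ addl u v, p ≤ n := by
  refine ⟨?_, fun p hp => ?_⟩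
  · unfold addl
    rw [List.length_map, List.length_zip]
    exact (min_le_left _ _).trans hu.1
  · unfold addl at hp
    obtain ⟨r, hr, rfl⟩ := List.mem_map.1 hp
    unfold dsj at hd
    rw [List.all_eq_true] at hd
    have h1 := hd r hr
    rw [Bool.or_eq_true, decide_eq_true_eq, decide_eq_true_eq] at h1
    have h2 := List.of_mem_zip (a := r.1) (b := r.2) (by simpa using hr)
    have h3 := hu.2 _ h2.1
    have h4 := hv.2 _ h2.2
    rcases h1 with h1 | h1 <;> omega

theorem pstep_mem {M : List (List Bool)} {X m : List ℕ} : ∀ (l acc : List (List ℕ)),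
    ∀ x ∈ l.foldl (Q322.CC.pstep M X m) acc, x ∈ acc ∨ x ∈ l := fun l acc =>
  (fold_spec (M := M) (X := X) (m := m) l acc).1

theorem SB.step {M : List (List Bool)} {X : List ℕ} {s cap l : ℕ} {S : List Nd}
    (h : SB M.length s (cap + 1) l S) : SB M.length s (cap + 1) l (stp M X cap S) := by
  unfold stp
  cases ht : tws M S with
  | nil => simpa using h
  | cons p L =>
    simp only [List.head?_cons, Option.elim_some]
    obtain ⟨ha, hb, hab, -⟩ := mem_tws.1 (show p ∈ tws M S by rw [ht]; simp)
    refine ⟨?_, ?_⟩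
    · rw [List.length_cons]
      have := length_filter_add_two S (fun c => !(decide (c.1 = p.1.1)) && !(decide
        (c.1 = p.2.1))) ha hb (fun h' => hab (by rw [h'])) (by simp) (by simp)
      have := h.1
      omega
    · intro c hc
      rcases List.mem_cons.1 hc with rfl | hc
      · have h1 := h.2 _ ha
        have h2 := h.2 _ hb
        refine ⟨⟨?_, ?_⟩, ?_, ?_⟩
        · exact (List.length_take_le _ _).trans (Nat.le_succ _)
        · intro x hx
          have := List.mem_of_mem_take hx
          rcases List.mem_append.1 this with h' | h'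
          · exact h1.1.2 x h'
          · exact h2.1.2 x h'
        · exact (List.length_take_le _ _).trans (Nat.le_succ _)
        · intro x hx
          have := List.mem_of_mem_take hx
          rcases pstep_mem _ _ x this with h' | h'
          · simp at h'
          · unfold comb at h'
            obtain ⟨σ, hσ, h'⟩ := List.mem_flatMap.1 h'
            obtain ⟨τ, hτ, rfl⟩ := List.mem_map.1 h'
            obtain ⟨hτ, hdj⟩ := List.mem_filter.1 hτ
            exact addl_bound (h1.2.2 σ hσ) (h2.2.2 τ hτ) hdj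
      · exact h.2 c (List.mem_filter.1 hc).1

theorem cube_FB (v cap n : ℕ) (hv : v < n) (s : ℕ) : FB n s (cap + 1) (cube v cap s) := by
  induction s with
  | zero => exact ⟨by simp [cube], fun σ hσ => by simp [cube] at hσ; subst hσ; simp⟩
  | succ s ih =>
    have e : cube v cap (s + 1) =
        ((cube v cap s).flatMap (fun l => [0 :: l, (v + 1) :: l])).take cap := by
      unfold cube
      rw [Function.iterate_succ_apply']
    rw [e]
    refine ⟨(List.length_take_le _ _).trans (Nat.le_succ _), fun σ hσ => ?_⟩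
    have h1 := List.mem_of_mem_take hσ
    obtain ⟨l, hl, h2⟩ := List.mem_flatMap.1 h1
    have h3 := ih.2 l hl
    simp only [List.mem_cons, List.not_mem_nil, or_false] at h2
    rcases h2 with rfl | rfl
    · refine ⟨by rw [List.length_cons]; omega, fun p hp => ?_⟩
      rcases List.mem_cons.1 hp with h | h
      · omega
      · exact h3.2 p h
    · refine ⟨by rw [List.length_cons]; omega, fun p hp => ?_⟩
      rcases List.mem_cons.1 hp with h | h
      · omega
      · exact h3.2 p h

theorem UPoly.le_eval {n : α → ℕ} (hn : UPoly n) : ∃ r : Polynomial ℕ, ∀ a, n a ≤ r.eval (sz a) := by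
  obtain ⟨u, hu⟩ := Poly.sz_le (f := fun a => List.replicate (n a) ()) hn
  refine ⟨u, fun a => ?_⟩
  have h := hu a
  rw [sz_replicate_unit] at h
  omega

theorem cube_sz (v cap : ℕ) (j : ℕ) : (cube v cap j).length ≤ cap + 1 ∧
    ∀ l ∈ cube v cap j, sz l ≤ j * (sz (v + 1) + sz 0 + 1) + 1 := by
  induction j with
  | zero => simp [cube]
  | succ j ih =>
    have e : cube v cap (j + 1) =
        ((cube v cap j).flatMap (fun l => [0 :: l, (v + 1) :: l])).take cap := by
      unfold cube
      rw [Function.iterate_succ_apply']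
    rw [e]
    refine ⟨(List.length_take_le _ _).trans (Nat.le_succ _), fun l hl => ?_⟩
    have h1 := List.mem_of_mem_take hl
    rw [List.mem_flatMap] at h1
    obtain ⟨l', hl', h2⟩ := h1
    have h3 := ih.2 l' hl'
    rw [Nat.succ_mul]
    simp only [List.mem_cons, List.not_mem_nil, or_false] at h2
    rcases h2 with rfl | rfl
    · rw [sz_list_cons]; omega
    · rw [sz_list_cons]; omega

theorem poly_cube {v : α → ℕ} (hv : Poly v) (hcap : UPoly cap) (hs : UPoly s) :
    Poly (fun a => cube (v a) (cap a) (s a)) := by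
  unfold cube
  obtain ⟨r, hr⟩ := (Poly.add hv (Poly.const 1)).sz_le
  obtain ⟨c, hc⟩ := UPoly.le_eval hcap
  obtain ⟨w, hw⟩ := UPoly.le_eval hs
  refine Poly.iterU (s := fun _ => [[]]) (F := fun a E => (E.flatMap (fun l => [0 :: l,
    (v a + 1) :: l])).take (cap a)) hs (Poly.const _) ?_
    ((c + 1) * ((w * (r + Polynomial.C (sz 0) + 1) + 1) + 1) + 1) ?_
  · refine poly_takeU (Poly.flatMap (α := α × List (List ℕ)) (F := fun q l => [0 :: l,
      (v q.1 + 1) :: l]) p2 ?_) (hcap.comp p1)
    exact Poly.cons (Poly.cons (Poly.const 0) p2) (Poly.cons (Poly.cons (Poly.add (hv.comp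
      (p1.comp p1)) (Poly.const 1)) p2) (Poly.const []))
  · intro a k hk
    have h1 := cube_sz (v a) (cap a) k
    have h5 := sz_le_length_mul (cube (v a) (cap a) k) (k * (sz (v a + 1) + sz 0 + 1) + 1) h1.2
    have h2 := hr a
    have h3 := hc a
    have h4 := hw a
    refine h5.trans ?_
    simp only [Polynomial.eval_add, Polynomial.eval_mul, Polynomial.eval_one, Polynomial.eval_C]
    refine Nat.add_le_add_right (Nat.mul_le_mul (h1.1.trans (by omega)) ?_) 1
    refine Nat.add_le_add_right (Nat.add_le_add_right (Nat.mul_le_mul (by omega) ?_) 1) 1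
    exact Nat.add_le_add_right (Nat.add_le_add_right h2 _) 1

/-! ### The packing -/

theorem poly_isq {a' b' : α → ℕ → ℕ → Bool} {f : α → List ℕ}
    (hX : Poly (fun q : α × ℕ × ℕ => a' q.1 q.2.1 q.2.2))
    (hY : Poly (fun q : α × ℕ × ℕ => b' q.1 q.2.1 q.2.2)) (hf : Poly f) :
    Poly (fun a => isq (a' a) (b' a) (f a)) := by
  have hg : ∀ i : ℕ, Poly (fun a => (f a).getD i 0) := fun i =>
    Poly.getD hf (Poly.const i) (Poly.const 0)
  have hx : ∀ i j : ℕ, Poly (fun a => a' a ((f a).getD i 0) ((f a).getD j 0)) := fun i j =>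
    hX.comp (f := fun a => (a, ((f a).getD i 0, (f a).getD j 0)))
      (Poly.pair Poly.id (Poly.pair (hg i) (hg j)))
  have hy : ∀ i j : ℕ, Poly (fun a => b' a ((f a).getD i 0) ((f a).getD j 0)) := fun i j =>
    hY.comp (f := fun a => (a, ((f a).getD i 0, (f a).getD j 0)))
      (Poly.pair Poly.id (Poly.pair (hg i) (hg j)))
  unfold isq
  exact Poly.and (Poly.and (hx 0 1) (Poly.and (hx 1 2) (hx 2 3))) (Poly.and
    (Poly.and (Poly.not (hx 0 2)) (Poly.and (Poly.not (hx 0 3)) (Poly.not (hx 1 3))))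
    (Poly.and (Poly.not (hy 0 2)) (Poly.and (Poly.not (hy 0 3)) (Poly.not (hy 1 3)))))

theorem poly_xstp (hM : Poly M) {acc f : α → List ℕ} (hacc : Poly acc) (hf : Poly f) :
    Poly (fun a => xstp (M a) (acc a) (f a)) := by
  unfold xstp
  refine Poly.cond (Poly.and ?_ ?_) (Poly.append hf hacc) hacc
  · refine poly_isq (a' := fun a x y => adj false (M a) x y) (b' := fun _ x y => decide (x = y))
      ?_ ?_ hf
    · exact poly_adj false (hM.comp p1) (p1.comp p2) (p2.comp p2)
    · exact Poly.decide_eq (p1.comp p2) (p2.comp p2)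
  · exact Poly.all (p := fun a x => !(decide (x ∈ acc a))) hf
      (Poly.not (Poly.decide_mem p2 (hacc.comp p1)))

theorem poly_mod (hM : Poly M) : Poly (fun a => Pool.Agent.Q322.CC.mod (M a)) := by
  unfold Pool.Agent.Q322.CC.mod
  have hT := poly_tuples 4 (Poly.range_length hM)
  obtain ⟨r, hr⟩ := hT.sz_le
  have key : ∀ a, ∀ (l : List (List ℕ)) (U : List ℕ), sz (l.foldl (xstp (M a)) U) ≤
      sz l + sz U := by
    intro a l
    induction l with
    | nil => intro U; simp
    | cons v l ih =>
      intro U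
      rw [List.foldl_cons]
      refine (ih _).trans ?_
      have : sz (xstp (M a) U v) ≤ sz U + sz v := by
        rcases xstp_spec (M := M a) U v with ⟨e, -⟩ | ⟨e, -⟩
        · rw [e]
          have := sz_append v U
          omega
        · rw [e]
          omega
      simp only [sz_list_cons]
      omega
  refine Poly.foldl (l := fun a => tuples 4 (List.range (M a).length))
    (s := fun _ => ([] : List ℕ)) (F := fun a => xstp (M a)) hT (Poly.const _) ?_
    (r + Polynomial.C 1) ?_
  · exact poly_xstp (hM.comp p1) (p1.comp p2) (p2.comp p2)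
  · intro a k _
    refine (key a _ _).trans ?_
    have h1 := Poly.sz_take_le (tuples 4 (List.range (M a).length)) k
    have h2 := hr a
    simp only [sz_list_nil, Polynomial.eval_add, Polynomial.eval_C]
    omega

theorem poly_rst (hM : Poly M) : Poly (fun a => rst (M a)) := by
  unfold rst
  exact Poly.filter (p := fun a x => !(decide (x ∈ Pool.Agent.Q322.CC.mod (M a))))
    (Poly.range_length hM) (Poly.not (Poly.decide_mem p2 ((poly_mod hM).comp p1)))

theorem SB.init (M : List (List Bool)) (cap s : ℕ) :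
    SB M.length s (cap + 1) M.length ((rst M).map fun v => ([v], cube v cap s)) := by
  refine ⟨?_, ?_⟩
  · rw [List.length_map]
    unfold rst
    refine (List.length_filter_le _ _).trans ?_
    rw [List.length_range]
  · intro a ha
    obtain ⟨v, hv, rfl⟩ := List.mem_map.1 ha
    have hv' := (mem_rst.1 hv).1
    refine ⟨⟨by simp, fun p hp => ?_⟩, cube_FB v cap _ hv' s⟩
    simp only [List.mem_singleton] at hp
    omega

theorem SB.iter {M : List (List Bool)} {X : List ℕ} {s cap l : ℕ} {S : List Nd}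
    (h : SB M.length s (cap + 1) l S) (j : ℕ) :
    SB M.length s (cap + 1) l ((stp M X cap)^[j] S) := by
  induction j with
  | zero => exact h
  | succ j ih =>
    rw [Function.iterate_succ_apply']
    exact ih.step

variable {k : α → ℕ}

theorem poly_run (hM : Poly M) (hk : UPoly k) (hcap : UPoly cap) :
    Poly (fun a => run (M a) (k a) (cap a)) := by
  unfold run
  have h2k : UPoly (fun a => 2 * k a) := UPoly.mul (UPoly.const 2) hk
  obtain ⟨r, hr⟩ := UPoly.le_eval (UPoly.length hM)
  obtain ⟨c, hc⟩ := UPoly.le_eval hcap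
  obtain ⟨w, hw⟩ := UPoly.le_eval h2k
  have hX : Poly (fun a => (Pool.Agent.Q322.CC.mod (M a)).map (fun v => v + 1)) :=
    Poly.map (F := fun _ v => v + 1) (poly_mod hM) (Poly.add p2 (Poly.const 1))
  refine Poly.iterU (s := fun a => (rst (M a)).map fun v => ([v], cube v (cap a) (2 * k a)))
    (F := fun a S => stp (M a) ((Pool.Agent.Q322.CC.mod (M a)).map (fun v => v + 1)) (cap a) S)
    (UPoly.length hM) ?_ (poly_stp (hM.comp p1) (hX.comp p1) (hcap.comp p1) p2)
    (r * ((((r + 1) * (2 * (4 * r + 1) + 1) + 1) + ((c + 1) * ((w * (2 * (4 * r + 1) + 1) + 1)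
      + 1) + 1) + 1) + 1) + 1) ?_
  · refine Poly.map (F := fun a v => ([v], cube v (cap a) (2 * k a))) (poly_rst hM) ?_
    exact Poly.pair (Poly.cons p2 (Poly.const [])) (poly_cube p2 (hcap.comp p1) (h2k.comp p1))
  · intro a j _
    have h1 := ((SB.init (M a) (cap a) (2 * k a)).iter (X := (Pool.Agent.Q322.CC.mod (M a)).map
      (fun v => v + 1)) j).size
    refine h1.trans ?_
    have h2 := hr a
    have h3 := hc a
    have h4 := hw a
    simp only [Polynomial.eval_add, Polynomial.eval_mul, Polynomial.eval_one,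
      Polynomial.eval_ofNat]
    unfold zn
    have hz : 2 * (4 * (M a).length + 1) + 1 ≤ 2 * (4 * Polynomial.eval (sz a) r + 1) + 1 := by
      omega
    refine Nat.add_le_add_right (Nat.mul_le_mul h2 ?_) 1
    refine Nat.add_le_add_right (Nat.add_le_add_right (Nat.add_le_add ?_ ?_) 1) 1
    · exact Nat.add_le_add_right (Nat.mul_le_mul (by omega) hz) 1
    · refine Nat.add_le_add_right (Nat.mul_le_mul (by omega) ?_) 1
      exact Nat.add_le_add_right (Nat.add_le_add_right (Nat.mul_le_mul h4 hz) 1) 1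

theorem poly_cand (hM : Poly M) (hk : UPoly k) (hcap : UPoly cap) :
    Poly (fun a => Q322.CC.cand (M a) (k a) (cap a)) := by
  unfold Q322.CC.cand
  refine Poly.append (poly_mod hM) (Poly.map (F := fun _ p => p - 1) (Poly.flatMap
    (F := fun _ (x : Nd) => x.2.flatten) (poly_run hM hk hcap) ?_) (Poly.sub p2 (Poly.const 1)))
  exact Poly.flatten (Poly.snd p2)

theorem poly_chk4 {L : α → List (ℕ × ℕ)} (hM : Poly M) (hk : Poly k) (hL : Poly L) :
    Poly (fun a => chk4 (M a) (k a) (L a)) := by
  have hl := poly_labs hM hL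
  unfold chk4
  refine Poly.and (Poly.and (Poly.decide_le (Poly.length hL) hk) ?_) (Poly.not ?_)
  · exact Poly.all (p := fun a e => adj false (M a) e.1 e.2) hL
      (poly_adj false (hM.comp p1) (p1.comp p2) (p2.comp p2))
  · refine Poly.any (p := fun a f => isq (fun x y => xad false (M a) (labs (M a).length (L a)) x y)
      (fun x y => sam (labs (M a).length (L a)) x y) f) (poly_tuples 4 (Poly.range_length hM)) ?_
    refine poly_isq (α := α × List ℕ)
      (a' := fun q x y => xad false (M q.1) (labs (M q.1).length (L q.1)) x y)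
      (b' := fun q x y => sam (labs (M q.1).length (L q.1)) x y) ?_ ?_ p2
    · exact poly_xad false (hM.comp (p1.comp p1)) (hl.comp (p1.comp p1)) (p1.comp p2) (p2.comp p2)
    · exact poly_sam (hl.comp (p1.comp p1)) (p1.comp p2) (p2.comp p2)

theorem poly_alg4 {cap' : α → ℕ} (hM : Poly M) (hk : UPoly k) (hcap : UPoly cap)
    (hcap' : UPoly cap') : Poly (fun a => alg4 (M a) (k a) (cap a) (cap' a)) := by
  unfold alg4
  refine Poly.any (p := fun a L => chk4 (M a) (k a) L) ?_
    (poly_chk4 (hM.comp p1) (hk.toPoly.comp p1) p2)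
  exact poly_enu (poly_prs hM (poly_cand hM hk hcap)) hcap' hk

end

/-! ### The bounds -/

/-- The bound for the number of representatives. -/
def cp (k : ℕ) : ℕ := 2 ^ (pw (2 * (pw 4 (2 * k + 4) * 2 ^ (8 * k))) (2 * k + 4))

theorem Bd_le (k : ℕ) : Bd (2 * k) (8 * k) ≤ cp k := by
  unfold Bd cp
  refine Nat.pow_le_pow_right (by omega) ?_
  refine (Nat.pow_le_pow_left ?_ _).trans (le_pw _ _)
  exact Nat.mul_le_mul_left _ (Nat.mul_le_mul_right _ (le_pw _ _))

/-- The bound for the size of the candidate set. -/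
def wu (k : ℕ) : ℕ := 8 * k + cp k * (2 * k)

theorem Wb_le' (k : ℕ) : Q322.CC.Wb k ≤ wu k := by
  unfold Q322.CC.Wb wu
  exact Nat.add_le_add_left (Nat.mul_le_mul_right _ (Bd_le k)) _

/-- The bound for the number of candidates. -/
def cp' (k : ℕ) : ℕ := pw (wu k * wu k + 1) k

theorem UF.cp : UF (fun k => cp k) := by
  have h2k : UF (fun k => 2 * k) := UF.mul (UF.const 2) UF.id
  have h8k : UF (fun k => 8 * k) := UF.mul (UF.const 8) UF.id
  have hs : UF (fun k => 2 * k + 4) := UF.add h2k (UF.const 4)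
  unfold H633.cp
  exact UF.two_pow (UF.pw (UF.mul (UF.const 2) (UF.mul (UF.pw (UF.const 4) hs)
    (UF.two_pow h8k))) hs)

theorem UF.cp' : UF (fun k => cp' k) := by
  have h2k : UF (fun k => 2 * k) := UF.mul (UF.const 2) UF.id
  have h8k : UF (fun k => 8 * k) := UF.mul (UF.const 8) UF.id
  have hw : UF (fun k => wu k) := by
    unfold H633.wu
    exact UF.add h8k (UF.mul UF.cp h2k)
  unfold H633.cp'
  exact UF.pw (UF.add (UF.mul hw hw) (UF.const 1)) UF.id

/-- Contraction to cographs is fixed-parameter tractable. -/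
theorem isFpt_sol4 : IsFpt (fun x : List (List Bool) × ℕ => x.2)
    (fun x => ∃ L, Sol4 x.1 x.2 L) := by
  refine ⟨fun x => alg4 x.1 x.2 (cp x.2) (cp' x.2), ?_, fun x => ?_⟩
  · have hp : Poly (fun y : (List (List Bool) × ℕ) × List Unit × List Unit × List Unit =>
        alg4 y.1.1 y.2.1.length y.2.2.1.length y.2.2.2.length) :=
      poly_alg4 (Poly.fst (Poly.fst Poly.id)) (UPoly.length (Poly.fst (Poly.snd Poly.id)))
        (UPoly.length (Poly.fst (Poly.snd (Poly.snd Poly.id))))
        (UPoly.length (Poly.snd (Poly.snd (Poly.snd Poly.id))))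
    have hk : Poly (fun x : List (List Bool) × ℕ => x.2) := Poly.snd Poly.id
    have h3 := FptTime.poly_comp hp ((FptTime.of_poly (κ := fun x : List (List Bool) × ℕ => x.2)
      Poly.id).pair ((UF.pad UF.id hk).pair ((UF.pad UF.cp hk).pair (UF.pad UF.cp' hk))))
    simpa only [List.length_replicate] using h3
  · refine alg4_spec x.1 x.2 _ _ (Bd_le x.2) ?_
    exact pow_sq_le (Wb_le' x.2) x.2

end Pool.Agent.NPC.H633
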