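import Pool.Agent.Q322.CC.Code

/-!
# Representative assignments
-/

namespace Pool.Agent.Q322.CC

open Pool.Agent.H633R2 Pool.Agent.H633R2.Ctr

variable {M : List (List Bool)} {X : List ℕ}

/-- proper assignments -/
def Pr (m u : List ℕ) : Prop := ∀ p ∈ u, p = 0 ∨ p - 1 ∈ m

theorem Pr.append {m u v : List ℕ} (hu : Pr m u) (hv : Pr m v) : Pr m (u ++ v) := by
  intro p hp
  rcases List.mem_append.1 hp with h | h
  · exact hu p h
  · exact hv p h

theorem Pr.getD {m u : List ℕ} (hu : Pr m u) (N : ℕ) : Prop' m N (fun i => u.getD i 0) := by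
  intro i _
  by_cases h : i < u.length
  · simp only [List.getD_eq_getElem?_getD, List.getElem?_eq_getElem h, Option.getD_some]
    exact hu _ (List.getElem_mem h)
  · left
    simp [List.getD_eq_getElem?_getD, List.getElem?_eq_none (not_lt.1 h)]

/-- One direction of the equivalence. -/
def Le4 (M : List (List Bool)) (X m σ τ : List ℕ) : Prop :=
  ∀ w : List ℕ, w.length = 4 → Pr m w → ∃ w' : List ℕ, w'.length = 4 ∧ Pr m w' ∧
    pat M X (σ ++ w) = pat M X (τ ++ w')

theorem mem_tup {m w : List ℕ} : w ∈ tuples 4 (0 :: m.map (fun v => v + 1)) ↔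
    w.length = 4 ∧ Pr m w := by
  rw [mem_tuples]
  refine and_congr_right fun _ => forall_congr' fun p => imp_congr_right fun _ => ?_
  rw [List.mem_cons, List.mem_map]
  constructor
  · rintro (h | ⟨v, hv, rfl⟩)
    · exact Or.inl h
    · exact Or.inr (by simpa using hv)
  · rintro (h | h)
    · exact Or.inl h
    · by_cases h0 : p = 0
      · exact Or.inl h0
      · exact Or.inr ⟨p - 1, h, by omega⟩

theorem sub_iff {m σ τ : List ℕ} :
    sub (prof M X m σ) (prof M X m τ) = true ↔ Le4 M X m σ τ := by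
  unfold sub prof Le4
  simp only [List.all_eq_true, List.mem_map, decide_eq_true_eq]
  constructor
  · intro h w hw hp
    obtain ⟨w', h1, h2⟩ := h _ ⟨w, mem_tup.2 ⟨hw, hp⟩, rfl⟩
    obtain ⟨h3, h4⟩ := mem_tup.1 h1
    exact ⟨w', h3, h4, h2.symm⟩
  · rintro h x ⟨w, hw, rfl⟩
    obtain ⟨h1, h2⟩ := mem_tup.1 hw
    obtain ⟨w', h3, h4, h5⟩ := h w h1 h2
    exact ⟨w', mem_tup.2 ⟨h3, h4⟩, h5.symm⟩

theorem eqv_iff {m σ τ : List ℕ} : eqv M X m σ τ = true ↔ Le4 M X m σ τ ∧ Le4 M X m τ σ := by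
  unfold eqv
  rw [Bool.and_eq_true, sub_iff, sub_iff]

theorem Le4.refl (m σ : List ℕ) : Le4 M X m σ σ := fun w h1 h2 => ⟨w, h1, h2, rfl⟩

theorem Le4.trans {m σ τ ρ : List ℕ} (h : Le4 M X m σ τ) (h' : Le4 M X m τ ρ) :
    Le4 M X m σ ρ := by
  intro w h1 h2
  obtain ⟨w', h3, h4, h5⟩ := h w h1 h2
  obtain ⟨w'', h6, h7, h8⟩ := h' w' h3 h4
  exact ⟨w'', h6, h7, h5.trans h8⟩

theorem eqv_refl (m σ : List ℕ) : eqv M X m σ σ = true := eqv_iff.2 ⟨Le4.refl m σ, Le4.refl m σ⟩

theorem eqv_trans {m σ τ ρ : List ℕ} (h : eqv M X m σ τ = true) (h' : eqv M X m τ ρ = true) :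
    eqv M X m σ ρ = true := by
  rw [eqv_iff] at *
  exact ⟨h.1.trans h'.1, h'.2.trans h.2⟩

/-- Only membership in the module matters. -/
theorem Pr.congr {m m' u : List ℕ} (h : ∀ x, x ∈ m ↔ x ∈ m') (hu : Pr m u) : Pr m' u :=
  fun p hp => (hu p hp).imp_right (h _).1

/-! ### The choice of representatives -/

theorem fold_spec {m : List ℕ} : ∀ (l acc : List (List ℕ)),
    (∀ x ∈ l.foldl (pstep M X m) acc, x ∈ acc ∨ x ∈ l) ∧
    (∀ x ∈ acc, x ∈ l.foldl (pstep M X m) acc) ∧
    (∀ x ∈ l, ∃ τ ∈ l.foldl (pstep M X m) acc, eqv M X m x τ = true) ∧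
    (acc.Pairwise (fun σ τ => eqv M X m σ τ = false) →
      (l.foldl (pstep M X m) acc).Pairwise (fun σ τ => eqv M X m σ τ = false)) := by
  intro l
  induction l with
  | nil => intro acc; simp
  | cons σ l ih =>
    intro acc
    rw [List.foldl_cons]
    have e : pstep M X m acc σ = if acc.any (fun τ => eqv M X m σ τ) then acc else σ :: acc := by
      unfold pstep
      cases acc.any (fun τ => eqv M X m σ τ) <;> rfl
    obtain ⟨h1, h2, h3, h4⟩ := ih (pstep M X m acc σ)
    rw [e] at h1 h2 h3 h4 ⊢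
    by_cases hc : acc.any (fun τ => eqv M X m σ τ) = true
    · rw [if_pos hc] at h1 h2 h3 h4 ⊢
      refine ⟨fun x hx => ?_, h2, fun x hx => ?_, h4⟩
      · rcases h1 x hx with h | h
        · exact Or.inl h
        · exact Or.inr (List.mem_cons_of_mem _ h)
      · rcases List.mem_cons.1 hx with rfl | hx
        · obtain ⟨τ, hτ, he⟩ := List.any_eq_true.1 hc
          exact ⟨τ, h2 τ hτ, he⟩
        · exact h3 x hx
    · rw [if_neg hc] at h1 h2 h3 h4 ⊢
      refine ⟨fun x hx => ?_, fun x hx => h2 x (List.mem_cons_of_mem _ hx), fun x hx => ?_,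
        fun hp => h4 ?_⟩
      · rcases h1 x hx with h | h
        · rcases List.mem_cons.1 h with rfl | h
          · exact Or.inr (by simp)
          · exact Or.inl h
        · exact Or.inr (List.mem_cons_of_mem _ h)
      · rcases List.mem_cons.1 hx with rfl | hx
        · exact ⟨x, h2 x (by simp), eqv_refl _ _⟩
        · exact h3 x hx
      · rw [List.pairwise_cons]
        refine ⟨fun τ hτ => ?_, hp⟩
        by_contra hn
        exact hc (List.any_eq_true.2 ⟨τ, hτ, by simpa using hn⟩)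

/-- The code of a list of points. -/
def Cd (X : List ℕ) (N : ℕ) : Type :=
  Fin N → (Bool × (Fin N → Bool × Bool) × (Fin X.length → Bool))

instance (X : List ℕ) (N : ℕ) : Fintype (Cd X N) := by unfold Cd; infer_instance

instance (X : List ℕ) (N : ℕ) : DecidableEq (Cd X N) := by unfold Cd; infer_instance

/-- encoding -/
def enc (M : List (List Bool)) (X : List ℕ) (N : ℕ) (u : List ℕ) : Cd X N := fun i =>
  (decide (u.getD i 0 = 0), fun j => (decide (u.getD i 0 = u.getD j 0),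
    ajp M (u.getD i 0) (u.getD j 0)), fun x => ajp M (u.getD i 0) X[x])

theorem pat_of_enc {N : ℕ} {u v : List ℕ} (hu : u.length = N) (hv : v.length = N)
    (h : enc M X N u = enc M X N v) : pat M X u = pat M X v := by
  rw [pat_iff (hu.trans hv.symm), hu]
  have h1 : ∀ i : Fin N, enc M X N u i = enc M X N v i := fun i => by rw [h]
  refine ⟨fun i hi => ?_, fun i hi j hj => ?_, fun i hi j hj => ?_, fun i hi x hx => ?_⟩
  · have := (Prod.mk.inj (h1 ⟨i, hi⟩)).1
    rw [decide_eq_decide] at this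
    exact this
  · have := congrFun (Prod.mk.inj (Prod.mk.inj (h1 ⟨i, hi⟩)).2).1 ⟨j, hj⟩
    have := (Prod.mk.inj this).1
    rw [decide_eq_decide] at this
    exact this
  · have := congrFun (Prod.mk.inj (Prod.mk.inj (h1 ⟨i, hi⟩)).2).1 ⟨j, hj⟩
    exact (Prod.mk.inj this).2
  · obtain ⟨a, ha, rfl⟩ := List.getElem_of_mem hx
    exact congrFun (Prod.mk.inj (Prod.mk.inj (h1 ⟨i, hi⟩)).2).2 ⟨a, ha⟩

/-- The bound for the number of classes. -/
theorem length_le {m : List ℕ} {s : ℕ} {T : List (List ℕ)} (hT : ∀ σ ∈ T, σ.length = s)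
    (hp : T.Pairwise (fun σ τ => eqv M X m σ τ = false)) :
    T.length ≤ 2 ^ ((2 * ((2 * 2) ^ (s + 4) * 2 ^ X.length)) ^ (s + 4)) := by
  classical
  let f : List ℕ → Finset (Cd X (s + 4)) := fun σ => Finset.univ.filter fun c =>
    ∃ w : List ℕ, w.length = 4 ∧ Pr m w ∧ enc M X (s + 4) (σ ++ w) = c
  have hle : ∀ σ ∈ T, ∀ τ ∈ T, f σ = f τ → Le4 M X m σ τ := by
    intro σ hσ τ hτ h w hw hpw
    have h1 : enc M X (s + 4) (σ ++ w) ∈ f σ :=
      Finset.mem_filter.2 ⟨Finset.mem_univ _, w, hw, hpw, rfl⟩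
    rw [h] at h1
    obtain ⟨-, w', hw', hpw', he⟩ := Finset.mem_filter.1 h1
    refine ⟨w', hw', hpw', pat_of_enc ?_ ?_ he.symm⟩
    · rw [List.length_append, hT σ hσ, hw]
    · rw [List.length_append, hT τ hτ, hw']
  have hnd : (T.map f).Nodup := by
    have : T.Pairwise (fun σ τ => f σ ≠ f τ) := by
      refine List.Pairwise.imp_of_mem ?_ hp
      intro σ τ hσ hτ h1 h2
      rw [← Bool.not_eq_true, eqv_iff] at h1
      exact h1 ⟨hle σ hσ τ hτ h2, hle τ hτ σ hσ h2.symm⟩
    exact List.pairwise_map.2 this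
  have h1 := hnd.length_le_card
  rw [List.length_map, Fintype.card_finset] at h1
  refine h1.trans (le_of_eq ?_)
  congr 1
  unfold Cd
  simp [Fintype.card_pi, Fintype.card_prod]

/-- Families of representatives. -/
structure Rp (M : List (List Bool)) (X : List ℕ) (s : ℕ) (m : List ℕ) (T : List (List ℕ)) :
    Prop where
  ok : ∀ σ ∈ T, σ.length = s ∧ Pr m σ
  rep : ∀ σ : List ℕ, σ.length = s → Pr m σ → ∃ τ ∈ T, eqv M X m σ τ = true

/-! ### Unions of assignments -/

theorem addl_length {u v : List ℕ} (h : u.length = v.length) : (addl u v).length = u.length := by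
  simp [addl, h]

theorem addl_getD {u v : List ℕ} (h : u.length = v.length) (i : ℕ) :
    (addl u v).getD i 0 = u.getD i 0 + v.getD i 0 := by
  unfold addl
  by_cases hi : i < u.length
  · have hi' : i < v.length := by omega
    simp [List.getD_eq_getElem?_getD, hi, hi']
  · have hi' : ¬ i < v.length := by omega
    simp only [List.getD_eq_getElem?_getD, List.getElem?_eq_none (not_lt.1 hi),
      List.getElem?_eq_none (not_lt.1 hi')]
    rw [List.getElem?_eq_none (by simp; omega)]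
    simp

theorem addl_append {u v u' v' : List ℕ} (h : u.length = v.length) :
    addl (u ++ u') (v ++ v') = addl u v ++ addl u' v' := by
  unfold addl
  rw [List.zip_append h, List.map_append]

theorem dsj_iff {u v : List ℕ} (h : u.length = v.length) :
    dsj u v = true ↔ ∀ i < u.length, u.getD i 0 = 0 ∨ v.getD i 0 = 0 := by
  unfold dsj
  rw [List.all_eq_true]
  constructor
  · intro h1 i hi
    have hi' : i < v.length := by omega
    have hz : i < (u.zip v).length := by rw [List.length_zip]; omega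
    have h2 := h1 _ (List.getElem_mem hz)
    simp only [List.getElem_zip, Bool.or_eq_true, decide_eq_true_eq] at h2
    simpa [List.getD_eq_getElem?_getD, hi, hi'] using h2
  · intro h1 p hp
    obtain ⟨i, hi, rfl⟩ := List.getElem_of_mem hp
    rw [List.length_zip] at hi
    have h2 := h1 i (by omega)
    have hi1 : i < u.length := by omega
    have hi2 : i < v.length := by omega
    simpa [List.getD_eq_getElem?_getD, hi1, hi2] using h2

/-- restriction to a module -/
def rs (m u : List ℕ) : List ℕ := u.map fun p => if p ≠ 0 ∧ p - 1 ∈ m then p else 0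

theorem rs_length (m u : List ℕ) : (rs m u).length = u.length := by simp [rs]

theorem rs_pr (m u : List ℕ) : Pr m (rs m u) := by
  intro p hp
  obtain ⟨q, hq, rfl⟩ := List.mem_map.1 hp
  split_ifs with h
  · exact Or.inr h.2
  · exact Or.inl rfl

theorem rs_getD (m u : List ℕ) (i : ℕ) :
    (rs m u).getD i 0 = if u.getD i 0 ≠ 0 ∧ u.getD i 0 - 1 ∈ m then u.getD i 0 else 0 := by
  unfold rs
  by_cases hi : i < u.length
  · simp [List.getD_eq_getElem?_getD, hi]
  · simp [List.getD_eq_getElem?_getD, List.getElem?_eq_none (not_lt.1 hi)]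

theorem ext_getD {u v : List ℕ} (hl : u.length = v.length) (h : ∀ i < u.length,
    u.getD i 0 = v.getD i 0) : u = v := by
  refine List.ext_getElem hl ?_
  intro i h1 h2
  have := h i h1
  simpa [List.getD_eq_getElem?_getD, h1, h2] using this

theorem addl_rs {m₁ m₂ : List ℕ} (hd : ∀ v ∈ m₁, v ∉ m₂) {u : List ℕ} (hu : Pr (m₁ ++ m₂) u) :
    addl (rs m₁ u) (rs m₂ u) = u := by
  have hl : (rs m₁ u).length = (rs m₂ u).length := by rw [rs_length, rs_length]
  refine ext_getD (by rw [addl_length hl, rs_length]) fun i _ => ?_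
  rw [addl_getD hl, rs_getD, rs_getD]
  have h1 := hu.getD (i + 1) i (Nat.lt_succ_self i)
  simp only at h1
  by_cases h0 : u.getD i 0 = 0
  · rw [if_neg (fun h => h.1 h0), if_neg (fun h => h.1 h0), h0]
  · rw [List.mem_append] at h1
    rcases h1 with h1 | h1 | h1
    · exact absurd h1 h0
    · rw [if_pos ⟨h0, h1⟩, if_neg (fun h => hd _ h1 h.2), Nat.add_zero]
    · rw [if_neg (fun h => hd _ h.2 h1), if_pos ⟨h0, h1⟩, Nat.zero_add]

theorem rs_dsj {m₁ m₂ : List ℕ} (hd : ∀ v ∈ m₁, v ∉ m₂) (u : List ℕ) (i : ℕ) :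
    (rs m₁ u).getD i 0 = 0 ∨ (rs m₂ u).getD i 0 = 0 := by
  rw [rs_getD, rs_getD]
  by_cases h : u.getD i 0 ≠ 0 ∧ u.getD i 0 - 1 ∈ m₁
  · right
    rw [if_neg (fun h' => hd _ h.2 h'.2)]
  · left
    rw [if_neg h]

theorem getD_append_left {u v : List ℕ} {i : ℕ} (h : i < u.length) :
    (u ++ v).getD i 0 = u.getD i 0 := by
  simp [List.getD_eq_getElem?_getD, List.getElem?_append_left h]

theorem getD_append_right {u v : List ℕ} {i : ℕ} (h : u.length ≤ i) :
    (u ++ v).getD i 0 = v.getD (i - u.length) 0 := by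
  simp [List.getD_eq_getElem?_getD, List.getElem?_append_right h]

theorem addl_pr {m₁ m₂ u v : List ℕ} (hl : u.length = v.length)
    (hd : ∀ i < u.length, u.getD i 0 = 0 ∨ v.getD i 0 = 0) (hu : Pr m₁ u) (hv : Pr m₂ v) :
    Pr (m₁ ++ m₂) (addl u v) := by
  intro p hp
  obtain ⟨i, hi, rfl⟩ := List.getElem_of_mem hp
  rw [addl_length hl] at hi
  have e : (addl u v)[i]'(by rw [addl_length hl]; exact hi) = u.getD i 0 + v.getD i 0 := by
    rw [← addl_getD hl]
    simp [List.getD_eq_getElem?_getD, addl_length hl, hi]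
  rw [e, List.mem_append]
  have h1 := hu.getD (i + 1) i (Nat.lt_succ_self i)
  have h2 := hv.getD (i + 1) i (Nat.lt_succ_self i)
  simp only at h1 h2
  rcases hd i hi with h | h
  · rw [h, Nat.zero_add]
    exact h2.imp_right Or.inr
  · rw [h, Nat.add_zero]
    exact h1.imp_right Or.inl

/-- The composition lemma for one direction. -/
theorem Le4.comp {m₁ m₂ : List ℕ} (hd : ∀ v ∈ m₁, v ∉ m₂) {c : Bool}
    (hc : ∀ x ∈ m₁, ∀ y ∈ m₂, adj false M x y = c) {s : ℕ} {σ₁ σ₂ τ₁ τ₂ : List ℕ}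
    (l1 : σ₁.length = s) (l2 : σ₂.length = s) (l3 : τ₁.length = s) (l4 : τ₂.length = s)
    (p1 : Pr m₁ σ₁) (p2 : Pr m₂ σ₂) (p3 : Pr m₁ τ₁) (p4 : Pr m₂ τ₂)
    (hdis : ∀ i < s, σ₁.getD i 0 = 0 ∨ σ₂.getD i 0 = 0)
    (h₁ : Le4 M X m₁ σ₁ τ₁) (h₂ : Le4 M X m₂ σ₂ τ₂) :
    Le4 M X (m₁ ++ m₂) (addl σ₁ σ₂) (addl τ₁ τ₂) := by
  intro w hw hp
  obtain ⟨w₁, a1, a2, a3⟩ := h₁ (rs m₁ w) (by rw [rs_length, hw]) (rs_pr _ _)
  obtain ⟨w₂, b1, b2, b3⟩ := h₂ (rs m₂ w) (by rw [rs_length, hw]) (rs_pr _ _)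
  have e1 : addl σ₁ σ₂ ++ w = addl (σ₁ ++ rs m₁ w) (σ₂ ++ rs m₂ w) := by
    rw [addl_append (l1.trans l2.symm), addl_rs hd hp]
  have e2 : addl τ₁ τ₂ ++ addl w₁ w₂ = addl (τ₁ ++ w₁) (τ₂ ++ w₂) := by
    rw [addl_append (l3.trans l4.symm)]
  have L1 : (σ₁ ++ rs m₁ w).length = s + 4 := by rw [List.length_append, rs_length, l1, hw]
  have L2 : (σ₂ ++ rs m₂ w).length = s + 4 := by rw [List.length_append, rs_length, l2, hw]
  have L3 : (τ₁ ++ w₁).length = s + 4 := by rw [List.length_append, l3, a1]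
  have L4 : (τ₂ ++ w₂).length = s + 4 := by rw [List.length_append, l4, b1]
  rw [pat_iff (L1.trans L3.symm), L1] at a3
  rw [pat_iff (L2.trans L4.symm), L2] at b3
  have hdis' : ∀ i < s + 4, (σ₁ ++ rs m₁ w).getD i 0 = 0 ∨ (σ₂ ++ rs m₂ w).getD i 0 = 0 := by
    intro i _
    by_cases hi : i < s
    · rw [getD_append_left (by omega), getD_append_left (by omega)]
      exact hdis i hi
    · rw [getD_append_right (by omega), getD_append_right (by omega), l1, l2]
      exact rs_dsj hd w _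
  have key := CC.comp hd hc ((p1.append (rs_pr m₁ w)).getD (s + 4)) ((p3.append a2).getD (s + 4))
    ((p2.append (rs_pr m₂ w)).getD (s + 4)) ((p4.append b2).getD (s + 4)) hdis' a3 b3
  have hdw : ∀ i < 4, w₁.getD i 0 = 0 ∨ w₂.getD i 0 = 0 := by
    intro i hi
    have h1 := a3.1 (s + i) (by omega)
    have h2 := b3.1 (s + i) (by omega)
    have h3 := hdis' (s + i) (by omega)
    simp only at h1 h2
    rw [getD_append_right (u := τ₁) (by omega), l3, Nat.add_sub_cancel_left] at h1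
    rw [getD_append_right (u := τ₂) (by omega), l4, Nat.add_sub_cancel_left] at h2
    rw [← h1, ← h2]
    exact h3
  refine ⟨addl w₁ w₂, by rw [addl_length (a1.trans b1.symm), a1],
    addl_pr (a1.trans b1.symm) (by rw [a1]; exact hdw) a2 b2, ?_⟩
  rw [e1, e2, pat_iff (by rw [addl_length (L1.trans L2.symm), addl_length (L3.trans L4.symm), L1,
    L3]), addl_length (L1.trans L2.symm), L1]
  simp only [addl_getD (L1.trans L2.symm), addl_getD (L3.trans L4.symm)]
  exact key

/-- Equivalent assignments have the same slots. -/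
theorem Le4.zero {m σ τ : List ℕ} (h : Le4 M X m σ τ) (hl : σ.length = τ.length) :
    ∀ i < σ.length, (σ.getD i 0 = 0 ↔ τ.getD i 0 = 0) := by
  intro i hi
  obtain ⟨w', a1, a2, a3⟩ := h [0, 0, 0, 0] rfl (by
    intro p hp
    left
    simpa using hp)
  rw [pat_iff (by simp [hl, a1])] at a3
  have := a3.1 i (by rw [List.length_append]; omega)
  simp only at this
  rwa [getD_append_left hi, getD_append_left (by omega)] at this

/-- Merging families of representatives. -/
theorem Rp.merge {m₁ m₂ : List ℕ} (hd : ∀ v ∈ m₁, v ∉ m₂) {c : Bool}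
    (hc : ∀ x ∈ m₁, ∀ y ∈ m₂, adj false M x y = c) {s : ℕ} {S T : List (List ℕ)}
    (hS : Rp M X s m₁ S) (hT : Rp M X s m₂ T) :
    Rp M X s (m₁ ++ m₂) (prn M X (m₁ ++ m₂) (comb S T)) ∧
      (prn M X (m₁ ++ m₂) (comb S T)).length ≤
        2 ^ ((2 * ((2 * 2) ^ (s + 4) * 2 ^ X.length)) ^ (s + 4)) := by
  obtain ⟨f1, -, f3, f4⟩ := fold_spec (M := M) (X := X) (m := m₁ ++ m₂) (comb S T) []
  have hcomb : ∀ ρ ∈ comb S T, ρ.length = s ∧ Pr (m₁ ++ m₂) ρ := by
    intro ρ hρ
    unfold comb at hρ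
    obtain ⟨σ, hσ, hρ⟩ := List.mem_flatMap.1 hρ
    obtain ⟨τ, hτ, rfl⟩ := List.mem_map.1 hρ
    obtain ⟨hτ, hdj⟩ := List.mem_filter.1 hτ
    obtain ⟨l1, p1⟩ := hS.ok σ hσ
    obtain ⟨l2, p2⟩ := hT.ok τ hτ
    have hl : σ.length = τ.length := by omega
    rw [dsj_iff hl] at hdj
    exact ⟨by rw [addl_length hl, l1], addl_pr hl hdj p1 p2⟩
  have hok : ∀ ρ ∈ prn M X (m₁ ++ m₂) (comb S T), ρ.length = s ∧ Pr (m₁ ++ m₂) ρ := by
    intro ρ hρ
    rcases f1 ρ hρ with h | h
    · simp at h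
    · exact hcomb ρ h
  refine ⟨⟨hok, ?_⟩, length_le (m := m₁ ++ m₂) (fun ρ hρ => (hok ρ hρ).1)
    (f4 List.Pairwise.nil)⟩
  intro σ hl hp
  obtain ⟨τ₁, t1, e1⟩ := hS.rep (rs m₁ σ) (by rw [rs_length, hl]) (rs_pr _ _)
  obtain ⟨τ₂, t2, e2⟩ := hT.rep (rs m₂ σ) (by rw [rs_length, hl]) (rs_pr _ _)
  obtain ⟨l1, p1⟩ := hS.ok _ t1
  obtain ⟨l2, p2⟩ := hT.ok _ t2
  rw [eqv_iff] at e1 e2
  have r1 : (rs m₁ σ).length = s := by rw [rs_length, hl]
  have r2 : (rs m₂ σ).length = s := by rw [rs_length, hl]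
  have d0 : ∀ i < s, (rs m₁ σ).getD i 0 = 0 ∨ (rs m₂ σ).getD i 0 = 0 := fun i _ => rs_dsj hd σ i
  have d1 : ∀ i < s, τ₁.getD i 0 = 0 ∨ τ₂.getD i 0 = 0 := by
    intro i hi
    have z1 := e1.1.zero (by omega) i (by omega)
    have z2 := e2.1.zero (by omega) i (by omega)
    rw [← z1, ← z2]
    exact d0 i hi
  have c1 := Le4.comp hd hc r1 r2 l1 l2 (rs_pr _ _) (rs_pr _ _) p1 p2 d0 e1.1 e2.1
  have c2 := Le4.comp hd hc l1 l2 r1 r2 p1 p2 (rs_pr _ _) (rs_pr _ _) d1 e1.2 e2.2
  rw [addl_rs hd hp] at c1 c2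
  have hmem : addl τ₁ τ₂ ∈ comb S T := by
    unfold comb
    refine List.mem_flatMap.2 ⟨τ₁, t1, List.mem_map.2 ⟨τ₂, List.mem_filter.2 ⟨t2, ?_⟩, rfl⟩⟩
    rw [dsj_iff (l1.trans l2.symm), l1]
    exact d1
  obtain ⟨ρ, hρ, e3⟩ := f3 _ hmem
  exact ⟨ρ, hρ, eqv_trans (eqv_iff.2 ⟨c1, c2⟩) e3⟩

/-- The family of a single vertex. -/
theorem cube_spec (v cap : ℕ) : ∀ s : ℕ, 2 ^ s ≤ cap → (cube v cap s).length ≤ 2 ^ s ∧
    ∀ σ : List ℕ, σ ∈ cube v cap s ↔ σ.length = s ∧ Pr [v] σ := by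
  intro s
  induction s with
  | zero =>
    intro _
    refine ⟨by simp [cube], fun σ => ?_⟩
    simp only [cube, Function.iterate_zero, id_eq, List.mem_singleton, List.length_eq_zero_iff]
    constructor
    · rintro rfl
      exact ⟨rfl, fun p hp => by simp at hp⟩
    · exact fun h => h.1
  | succ s ih =>
    intro hcap
    have h1 : 2 ^ s ≤ cap := (Nat.pow_le_pow_right (by omega) (Nat.le_succ s)).trans hcap
    obtain ⟨h2, h3⟩ := ih h1
    have e : cube v cap (s + 1) =
        ((cube v cap s).flatMap (fun l => [0 :: l, (v + 1) :: l])).take cap := by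
      unfold cube
      rw [Function.iterate_succ_apply']
    have hlen : ((cube v cap s).flatMap (fun l => [0 :: l, (v + 1) :: l])).length ≤
        2 ^ (s + 1) := by
      have : ((cube v cap s).flatMap (fun l => [0 :: l, (v + 1) :: l])).length =
          (cube v cap s).length * 2 := by
        simp [List.length_flatMap]
      rw [this, pow_succ]
      exact Nat.mul_le_mul_right _ h2
    rw [List.take_of_length_le (hlen.trans hcap)] at e
    rw [e]
    refine ⟨hlen, fun σ => ?_⟩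
    simp only [List.mem_flatMap, List.mem_cons, List.not_mem_nil, or_false]
    constructor
    · rintro ⟨l, hl, h | h⟩
      · rw [h3] at hl
        subst h
        refine ⟨by simp [hl.1], fun p hp => ?_⟩
        rcases List.mem_cons.1 hp with h | h
        · exact Or.inl h
        · exact hl.2 p h
      · rw [h3] at hl
        subst h
        refine ⟨by simp [hl.1], fun p hp => ?_⟩
        rcases List.mem_cons.1 hp with h | h
        · right; rw [h]; simp
        · exact hl.2 p h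
    · rintro ⟨hl, hp⟩
      cases σ with
      | nil => simp at hl
      | cons p σ =>
        refine ⟨σ, (h3 σ).2 ⟨by simpa using hl, fun q hq => hp q (List.mem_cons_of_mem _ hq)⟩, ?_⟩
        by_cases h0 : p = 0
        · left; rw [h0]
        · right
          have h4 := (hp p (by simp)).resolve_left h0
          rw [List.mem_singleton] at h4
          rw [← h4]
          congr 1
          omega

theorem cube_rp (v : ℕ) {cap s : ℕ} (hcap : 2 ^ s ≤ cap) : Rp M X s [v] (cube v cap s) :=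
  ⟨fun σ hσ => ((cube_spec v cap s hcap).2 σ).1 hσ,
    fun σ h1 h2 => ⟨σ, ((cube_spec v cap s hcap).2 σ).2 ⟨h1, h2⟩, eqv_refl _ _⟩⟩

end Pool.Agent.Q322.CC
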