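import Pool.Agent.Q322.CC.Rep

/-!
# Transfer of solutions
-/

namespace Pool.Agent.Q322.CC

open Pool.Agent.H633R2 Pool.Agent.H633R2.Ctr

variable {M : List (List Bool)} {X : List ℕ}

/-- Two indexed families of points with the same equalities and adjacencies. -/
structure TE (M : List (List Bool)) (N : ℕ) (Q Q' : ℕ → ℕ) : Prop where
  z : ∀ i < N, Q i = 0 ↔ Q' i = 0
  e : ∀ i < N, ∀ j < N, Q i = Q j ↔ Q' i = Q' j
  a : ∀ i < N, ∀ j < N, ajp M (Q i) (Q j) = ajp M (Q' i) (Q' j)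

theorem TE.symm {N : ℕ} {Q Q' : ℕ → ℕ} (h : TE M N Q Q') : TE M N Q' Q :=
  ⟨fun i hi => (h.z i hi).symm, fun i hi j hj => (h.e i hi j hj).symm,
    fun i hi j hj => (h.a i hi j hj).symm⟩

/-- Adding the same vertices of `X`. -/
theorem TE.of_PE {N : ℕ} {u u' ξ : ℕ → ℕ} (h : PE M X N u u')
    (hξ : ∀ i < N, ξ i = 0 ∨ ξ i ∈ X) (hd : ∀ i < N, u i = 0 ∨ ξ i = 0)
    (hu : ∀ i < N, u i = 0 ∨ u i ∉ X) (hu' : ∀ i < N, u' i = 0 ∨ u' i ∉ X) :
    TE M N (fun i => u i + ξ i) (fun i => u' i + ξ i) := by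
  have cs : ∀ i < N, (u i = 0 ∧ u' i = 0 ∧ ξ i = 0) ∨
      (u i ≠ 0 ∧ u' i ≠ 0 ∧ ξ i = 0 ∧ u i ∉ X ∧ u' i ∉ X) ∨
      (u i = 0 ∧ u' i = 0 ∧ ξ i ≠ 0 ∧ ξ i ∈ X) := by
    intro i hi
    have a1 := h.1 i hi
    have a2 := hξ i hi
    have a3 := hd i hi
    have a4 := hu i hi
    have a5 := hu' i hi
    by_cases p1 : u i = 0
    · have p2 := a1.1 p1
      by_cases p3 : ξ i = 0
      · exact Or.inl ⟨p1, p2, p3⟩
      · exact Or.inr (Or.inr ⟨p1, p2, p3, a2.resolve_left p3⟩)
    · have p2 : u' i ≠ 0 := fun h => p1 (a1.2 h)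
      exact Or.inr (Or.inl ⟨p1, p2, a3.resolve_left p1, a4.resolve_left p1,
        a5.resolve_left p2⟩)
  refine ⟨fun i hi => ?_, fun i hi j hj => ?_, fun i hi j hj => ?_⟩
  · rcases cs i hi with ⟨a, b, c⟩ | ⟨a, b, c, _⟩ | ⟨a, b, c, _⟩ <;> omega
  · have e1 := h.2.1 i hi j hj
    rcases cs i hi with ⟨a, b, c⟩ | ⟨a, b, c, p, q⟩ | ⟨a, b, c, p⟩ <;>
      rcases cs j hj with ⟨f, g, k⟩ | ⟨f, g, k, r, s⟩ | ⟨f, g, k, r⟩
    · simp [a, b, c, f, g, k]
    · simp only [a, b, c, k]; omega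
    · simp only [a, b, f, g]
    · simp only [c, f, g, k]; omega
    · simp only [c, k]; simpa using e1
    · simp only [c, f, g]
      simp only [Nat.add_zero, Nat.zero_add]
      exact ⟨fun h' => absurd (h' ▸ r) p, fun h' => absurd (h' ▸ r) q⟩
    · simp only [a, b, f, g]
    · simp only [a, b, k]
      simp only [Nat.add_zero, Nat.zero_add]
      exact ⟨fun h' => absurd (h' ▸ p) r, fun h' => absurd (h' ▸ p) s⟩
    · simp only [a, b, f, g]
  · have e1 := h.2.2.1 i hi j hj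
    have e2 := h.2.2.2
    rcases cs i hi with ⟨a, b, c⟩ | ⟨a, b, c, p, q⟩ | ⟨a, b, c, p⟩ <;>
      rcases cs j hj with ⟨f, g, k⟩ | ⟨f, g, k, r, s⟩ | ⟨f, g, k, r⟩
    · simp [a, b, c]
    · simp [a, b, c]
    · simp [a, b, c]
    · simp [f, g, k]
    · simp only [c, k]; simpa using e1
    · simp only [c, f, g]
      simp only [Nat.add_zero, Nat.zero_add]
      exact e2 i hi _ r
    · simp [f, g, k]
    · simp only [a, b, k]
      simp only [Nat.add_zero, Nat.zero_add]
      rw [ajp_symm (ξ i), ajp_symm (ξ i)]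
      exact e2 j hj _ p
    · simp only [a, b, f, g]

/-- The edges given by the slots. -/
def edg (Q : ℕ → ℕ) (l : ℕ) : List (ℕ × ℕ) :=
  (List.range l).map fun i => (Q (2 * i) - 1, Q (2 * i + 1) - 1)

theorem mem_edg {Q : ℕ → ℕ} {l : ℕ} {e : ℕ × ℕ} :
    e ∈ edg Q l ↔ ∃ i < l, e = (Q (2 * i) - 1, Q (2 * i + 1) - 1) := by
  unfold edg
  simp only [List.mem_map, List.mem_range]
  constructor
  · rintro ⟨i, hi, rfl⟩; exact ⟨i, hi, rfl⟩
  · rintro ⟨i, hi, rfl⟩; exact ⟨i, hi, rfl⟩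

section

variable {N l : ℕ} {Q Q' : ℕ → ℕ}

theorem gen_transfer (hl : 2 * l ≤ N) (h0 : ∀ i < 2 * l, Q i ≠ 0) (h : TE M N Q Q') {x y : ℕ}
    (hxy : gen (edg Q l) x y) : x = y ∨ ∃ a < N, ∃ b < N, Q a ≠ 0 ∧ Q b ≠ 0 ∧ x = Q a - 1 ∧
      y = Q b - 1 ∧ gen (edg Q' l) (Q' a - 1) (Q' b - 1) := by
  have hE := gen_equiv (edg Q' l)
  induction hxy with
  | rel x y h1 =>
    right
    obtain ⟨i, hi, he⟩ := mem_edg.1 h1
    rw [Prod.mk.injEq] at he
    refine ⟨2 * i, by omega, 2 * i + 1, by omega, h0 _ (by omega), h0 _ (by omega), he.1, he.2, ?_⟩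
    exact Relation.EqvGen.rel _ _ (mem_edg.2 ⟨i, hi, rfl⟩)
  | refl x => exact Or.inl rfl
  | symm x y _ ih =>
    rcases ih with ih | ⟨a, ha, b, hb, h1, h2, h3, h4, h5⟩
    · exact Or.inl ih.symm
    · exact Or.inr ⟨b, hb, a, ha, h2, h1, h4, h3, hE.symm h5⟩
  | trans x y z _ _ ih1 ih2 =>
    rcases ih1 with rfl | ⟨a, ha, b, hb, h1, h2, h3, h4, h5⟩
    · exact ih2
    · rcases ih2 with rfl | ⟨c, hc, d, hd, h6, h7, h8, h9, h10⟩
      · exact Or.inr ⟨a, ha, b, hb, h1, h2, h3, h4, h5⟩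
      · refine Or.inr ⟨a, ha, d, hd, h1, h7, h3, h9, ?_⟩
        have e1 : Q b = Q c := by omega
        have e2 : Q' b = Q' c := (h.e b hb c hc).1 e1
        rw [e2] at h5
        exact hE.trans h5 h10

theorem gen_to (hl : 2 * l ≤ N) (h0 : ∀ i < 2 * l, Q i ≠ 0) (h : TE M N Q Q') {a b : ℕ}
    (ha : a < N) (hb : b < N) (ha0 : Q a ≠ 0) (hb0 : Q b ≠ 0)
    (hg : gen (edg Q l) (Q a - 1) (Q b - 1)) : gen (edg Q' l) (Q' a - 1) (Q' b - 1) := by
  rcases gen_transfer hl h0 h hg with h1 | ⟨c, hc, d, hd, h1, h2, h3, h4, h5⟩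
  · have e1 : Q a = Q b := by omega
    rw [(h.e a ha b hb).1 e1]
    exact (gen_equiv _).refl _
  · have e1 : Q a = Q c := by omega
    have e2 : Q b = Q d := by omega
    rw [(h.e a ha c hc).1 e1, (h.e b hb d hd).1 e2]
    exact h5

/-- Elements of the class of an indexed vertex are indexed. -/
theorem class_idx (hl : 2 * l ≤ N) (h0 : ∀ i < 2 * l, Q i ≠ 0) (h : TE M N Q Q') {a x : ℕ}
    (ha : a < N) (ha0 : Q a ≠ 0)
    (hg : gen (edg Q l) (Q a - 1) x) : ∃ c < N, Q c ≠ 0 ∧ x = Q c - 1 ∧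
      gen (edg Q' l) (Q' a - 1) (Q' c - 1) := by
  rcases gen_transfer hl h0 h hg with h1 | ⟨c, hc, d, hd, h1, h2, h3, h4, h5⟩
  · exact ⟨a, ha, ha0, h1.symm, (gen_equiv _).refl _⟩
  · refine ⟨d, hd, h2, h4, ?_⟩
    have e1 : Q a = Q c := by omega
    rw [(h.e a ha c hc).1 e1]
    exact h5

theorem TE.ne0 (h : TE M N Q Q') {a : ℕ} (ha : a < N) (h0 : Q a ≠ 0) : Q' a ≠ 0 :=
  fun h' => h0 ((h.z a ha).2 h')

theorem xa_to (hl : 2 * l ≤ N) (h0 : ∀ i < 2 * l, Q i ≠ 0) (h : TE M N Q Q') {a b : ℕ}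
    (ha : a < N) (hb : b < N) (ha0 : Q a ≠ 0) (hb0 : Q b ≠ 0)
    (hg : XA false (Aj false M) (gen (edg Q l)) (Q a - 1) (Q b - 1)) :
    XA false (Aj false M) (gen (edg Q' l)) (Q' a - 1) (Q' b - 1) := by
  obtain ⟨h1, -, h2⟩ := hg
  obtain ⟨x, y, hx, hy, hA⟩ := h2 rfl
  refine ⟨fun h' => h1 ?_, fun h => by simp at h, fun _ => ?_⟩
  · exact gen_to hl (fun i hi => h.ne0 (by omega) (h0 i hi)) h.symm ha hb (h.ne0 ha ha0)
      (h.ne0 hb hb0) h'
  · obtain ⟨c, hc, hc0, rfl, hcg⟩ := class_idx hl h0 h ha ha0 hx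
    obtain ⟨d, hd, hd0, rfl, hdg⟩ := class_idx hl h0 h hb hb0 hy
    refine ⟨_, _, hcg, hdg, ?_⟩
    have e1 := h.a c hc d hd
    rw [ajp_pos hc0 hd0, ajp_pos (h.ne0 hc hc0) (h.ne0 hd hd0)] at e1
    unfold Aj at *
    rw [← e1]
    exact hA

end

/-- A path on four vertices in the quotient. -/
def P4 (X s : ℕ → ℕ → Prop) (f : ℕ → ℕ) : Prop :=
  (X (f 0) (f 1) ∧ X (f 1) (f 2) ∧ X (f 2) (f 3)) ∧
    (¬ X (f 0) (f 2) ∧ ¬ X (f 0) (f 3) ∧ ¬ X (f 1) (f 3)) ∧
    ¬ s (f 0) (f 2) ∧ ¬ s (f 0) (f 3) ∧ ¬ s (f 1) (f 3)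

theorem P4.congr {X s : ℕ → ℕ → Prop} {f g : ℕ → ℕ} (h : ∀ j < 4, f j = g j)
    (hP : P4 X s f) : P4 X s g := by
  unfold P4 at *
  rw [← h 0 (by omega), ← h 1 (by omega), ← h 2 (by omega), ← h 3 (by omega)]
  exact hP

/-- Transfer of paths. -/
theorem P4.to {N l m : ℕ} {Q Q' : ℕ → ℕ} (hl : 2 * l ≤ N) (h0 : ∀ i < 2 * l, Q i ≠ 0)
    (h : TE M N Q Q') (hm : m + 4 ≤ N) (hm0 : ∀ j < 4, Q (m + j) ≠ 0)
    (hP : P4 (XA false (Aj false M) (gen (edg Q l))) (gen (edg Q l)) (fun j => Q (m + j) - 1)) :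
    P4 (XA false (Aj false M) (gen (edg Q' l))) (gen (edg Q' l)) (fun j => Q' (m + j) - 1) := by
  have h0' : ∀ i < 2 * l, Q' i ≠ 0 := fun i hi => h.ne0 (by omega) (h0 i hi)
  have hm0' : ∀ j < 4, Q' (m + j) ≠ 0 := fun j hj => h.ne0 (by omega) (hm0 j hj)
  have x1 : ∀ i < 4, ∀ j < 4,
      XA false (Aj false M) (gen (edg Q l)) (Q (m + i) - 1) (Q (m + j) - 1) →
      XA false (Aj false M) (gen (edg Q' l)) (Q' (m + i) - 1) (Q' (m + j) - 1) :=
    fun i hi j hj hx => xa_to hl h0 h (by omega) (by omega) (hm0 i hi) (hm0 j hj) hx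
  have x2 : ∀ i < 4, ∀ j < 4,
      XA false (Aj false M) (gen (edg Q' l)) (Q' (m + i) - 1) (Q' (m + j) - 1) →
      XA false (Aj false M) (gen (edg Q l)) (Q (m + i) - 1) (Q (m + j) - 1) :=
    fun i hi j hj hx => xa_to hl h0' h.symm (by omega) (by omega) (hm0' i hi) (hm0' j hj) hx
  have g2 : ∀ i < 4, ∀ j < 4, gen (edg Q' l) (Q' (m + i) - 1) (Q' (m + j) - 1) →
      gen (edg Q l) (Q (m + i) - 1) (Q (m + j) - 1) :=
    fun i hi j hj hx => gen_to hl h0' h.symm (by omega) (by omega) (hm0' i hi) (hm0' j hj) hx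
  obtain ⟨⟨a1, a2, a3⟩, ⟨a4, a5, a6⟩, a7, a8, a9⟩ := hP
  exact ⟨⟨x1 0 (by omega) 1 (by omega) a1, x1 1 (by omega) 2 (by omega) a2,
    x1 2 (by omega) 3 (by omega) a3⟩,
    ⟨fun h => a4 (x2 0 (by omega) 2 (by omega) h), fun h => a5 (x2 0 (by omega) 3 (by omega) h),
      fun h => a6 (x2 1 (by omega) 3 (by omega) h)⟩,
    fun h => a7 (g2 0 (by omega) 2 (by omega) h), fun h => a8 (g2 0 (by omega) 3 (by omega) h),
      fun h => a9 (g2 1 (by omega) 3 (by omega) h)⟩

/-- Solutions. -/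
structure Sol4 (M : List (List Bool)) (k : ℕ) (L : List (ℕ × ℕ)) : Prop where
  len : L.length ≤ k
  ed : ∀ e ∈ L, Aj false M e.1 e.2
  fr : ∀ f : ℕ → ℕ, ¬ P4 (XA false (Aj false M) (gen L)) (gen L) f

theorem Sol4.lt {k : ℕ} {L : List (ℕ × ℕ)} (h : Sol4 M k L) :
    ∀ e ∈ L, e.1 < M.length ∧ e.2 < M.length := fun e he =>
  ⟨(Aj_iff.1 (h.ed e he)).1, (Aj_iff.1 (h.ed e he)).2.1⟩

/-- The members of a path are vertices. -/
theorem P4.lt {L : List (ℕ × ℕ)} (hL : ∀ e ∈ L, e.1 < M.length ∧ e.2 < M.length) {f : ℕ → ℕ}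
    (h : P4 (XA false (Aj false M) (gen L)) (gen L) f) : ∀ j < 4, f j < M.length := by
  intro j hj
  obtain ⟨⟨a1, a2, a3⟩, -⟩ := h
  have b1 := pat_lt hL a1
  have b3 := pat_lt hL a3
  have : j = 0 ∨ j = 1 ∨ j = 2 ∨ j = 3 := by omega
  rcases this with rfl | rfl | rfl | rfl
  · exact b1.1
  · exact b1.2
  · exact b3.1
  · exact b3.2

/-- The exchange: a solution inside the candidate set. `R` is the list of the other vertices,
`Y` is the list of the special vertices. -/
theorem exchange4 {k : ℕ} {L : List (ℕ × ℕ)} (h : Sol4 M k L) {R Y : List ℕ}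
    (hRY : ∀ v < M.length, v ∈ R ∨ v ∈ Y) (hd : ∀ v ∈ R, v ∉ Y) {T : List (List ℕ)}
    (hT : Rp M (Y.map (fun v => v + 1)) (2 * k) R T) :
    ∃ L' : List (ℕ × ℕ), Sol4 M k L' ∧ ∀ x ∈ tch L', x ∈ Y ∨ ∃ τ ∈ T, ∃ p ∈ τ, x = p - 1 := by
  classical
  set X := Y.map (fun v => v + 1) with hX
  have hlen := h.len
  have hL := h.lt
  have memX : ∀ v : ℕ, v + 1 ∈ X ↔ v ∈ Y := by
    intro v
    rw [hX, List.mem_map]
    constructor
    · rintro ⟨w, hw, he⟩
      have : w = v := by omega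
      exact this ▸ hw
    · intro hv; exact ⟨v, hv, rfl⟩
  -- the slots of `L`
  set P : ℕ → ℕ := fun i => if i < 2 * L.length then
    (if i % 2 = 0 then (L.getD (i / 2) (0, 0)).1 else (L.getD (i / 2) (0, 0)).2) + 1 else 0
    with hP
  have hPL : edg P L.length = L := by
    unfold edg
    refine List.ext_getElem (by simp) ?_
    intro i h1 h2
    rw [List.getElem_map, List.getElem_range]
    have e1 : P (2 * i) = L[i].1 + 1 := by
      simp only [hP]
      rw [if_pos (by omega), if_pos (by omega), show 2 * i / 2 = i by omega,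
        List.getD_eq_getElem _ _ h2]
    have e2 : P (2 * i + 1) = L[i].2 + 1 := by
      simp only [hP]
      rw [if_pos (by omega), if_neg (by omega), show (2 * i + 1) / 2 = i by omega,
        List.getD_eq_getElem _ _ h2]
    rw [e1, e2]
    rfl
  have hPpos : ∀ i < 2 * L.length, P i ≠ 0 := by
    intro i hi
    simp only [hP]
    rw [if_pos hi]
    omega
  have hPlt : ∀ i, P i = 0 ∨ P i - 1 < M.length := by
    intro i
    by_cases hi : i < 2 * L.length
    · right
      have hi2 : i / 2 < L.length := by omega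
      have := hL _ (List.getElem_mem hi2)
      simp only [hP]
      rw [if_pos hi, List.getD_eq_getElem _ _ hi2]
      split_ifs
      · simpa using this.1
      · simpa using this.2
    · left
      simp only [hP]
      rw [if_neg hi]
  -- decomposition
  set σ : List ℕ := (List.range (2 * k)).map fun i => if P i - 1 ∈ R then P i else 0 with hσ
  set ξ : ℕ → ℕ := fun i => if P i ≠ 0 ∧ P i - 1 ∈ Y then P i else 0 with hξ
  have hσl : σ.length = 2 * k := by rw [hσ]; simp
  have hσg : ∀ i < 2 * k, σ.getD i 0 = if P i - 1 ∈ R then P i else 0 := by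
    intro i hi
    rw [List.getD_eq_getElem _ _ (by rw [hσl]; exact hi)]
    simp [hσ]
  have hσp : Pr R σ := by
    intro p hp
    rw [hσ, List.mem_map] at hp
    obtain ⟨i, -, rfl⟩ := hp
    split_ifs with h1
    · exact Or.inr h1
    · exact Or.inl rfl
  obtain ⟨τ, hτT, hτ⟩ := hT.rep σ hσl hσp
  obtain ⟨hτl, hτp⟩ := hT.ok τ hτT
  rw [eqv_iff] at hτ
  have hsum : ∀ i < 2 * k, σ.getD i 0 + ξ i = P i := by
    intro i hi
    rw [hσg i hi]
    simp only [hξ]
    by_cases h0 : P i = 0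
    · split_ifs <;> omega
    · rcases hRY _ ((hPlt i).resolve_left h0) with h1 | h1
      · rw [if_pos h1, if_neg (fun h => hd _ h1 h.2)]
        omega
      · rw [if_neg (fun h => hd _ h h1), if_pos ⟨h0, h1⟩]
        omega
  have hξX : ∀ i, ξ i = 0 ∨ ξ i ∈ X := by
    intro i
    simp only [hξ]
    split_ifs with h1
    · right
      have := (memX (P i - 1)).2 h1.2
      rwa [show P i - 1 + 1 = P i by omega] at this
    · exact Or.inl rfl
  have hσξ : ∀ i < 2 * k, σ.getD i 0 = 0 ∨ ξ i = 0 := by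
    intro i hi
    rw [hσg i hi]
    simp only [hξ]
    by_cases h1 : P i - 1 ∈ R
    · right
      rw [if_neg (fun h => hd _ h1 h.2)]
    · left
      rw [if_neg h1]
  have notX : ∀ u : List ℕ, Pr R u → ∀ i, u.getD i 0 = 0 ∨ u.getD i 0 ∉ X := by
    intro u hu i
    have h1 := hu.getD (i + 1) i (Nat.lt_succ_self i)
    simp only at h1
    by_cases h0 : u.getD i 0 = 0
    · exact Or.inl h0
    · right
      intro hx
      have h2 := h1.resolve_left h0
      refine hd _ h2 ?_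
      rw [← memX, show u.getD i 0 - 1 + 1 = u.getD i 0 by omega]
      exact hx
  -- the new slots
  set P' : ℕ → ℕ := fun i => τ.getD i 0 + ξ i with hP'
  -- the main transfer
  have key : ∀ w w' : List ℕ, w.length = 4 → w'.length = 4 → Pr R w → Pr R w' →
      pat M X (τ ++ w') = pat M X (σ ++ w) → ∀ η : ℕ → ℕ, (∀ j < 4, η j = 0 ∨ η j ∈ X) →
      (∀ j < 4, w'.getD j 0 = 0 ∨ η j = 0) →
      TE M (2 * k + 4) (fun i => (τ ++ w').getD i 0 + (if i < 2 * k then ξ i else η (i - 2 * k)))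
        (fun i => (σ ++ w).getD i 0 + (if i < 2 * k then ξ i else η (i - 2 * k))) := by
    intro w w' hw hw' pw pw' hpat η hη hηw
    have l1 : (τ ++ w').length = 2 * k + 4 := by rw [List.length_append, hτl, hw']
    have l2 : (σ ++ w).length = 2 * k + 4 := by rw [List.length_append, hσl, hw]
    rw [pat_iff (l1.trans l2.symm), l1] at hpat
    refine TE.of_PE hpat ?_ ?_ (fun i _ => notX _ (hτp.append pw') i)
      (fun i _ => notX _ (hσp.append pw) i)
    · intro i hi
      split_ifs with h1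
      · exact hξX i
      · exact hη _ (by omega)
    · intro i hi
      split_ifs with h1
      · have h2 := hpat.1 i hi
        simp only at h2
        rw [getD_append_left (by omega), getD_append_left (by omega)] at h2
        rw [getD_append_left (by omega), h2]
        exact hσξ i h1
      · rw [getD_append_right (by omega), hτl]
        exact hηw _ (by omega)
  have hl2 : 2 * L.length ≤ 2 * k + 4 := by omega
  -- the new edges
  have edP' : ∀ w' : List ℕ, ∀ η : ℕ → ℕ, edg (fun i => (τ ++ w').getD i 0 +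
      (if i < 2 * k then ξ i else η (i - 2 * k))) L.length = edg P' L.length := by
    intro w' η
    unfold edg
    refine List.map_congr_left fun i hi => ?_
    rw [List.mem_range] at hi
    simp only [hP']
    rw [getD_append_left (by omega), getD_append_left (by omega), if_pos (by omega),
      if_pos (by omega)]
  have edP : ∀ w : List ℕ, ∀ η : ℕ → ℕ, edg (fun i => (σ ++ w).getD i 0 +
      (if i < 2 * k then ξ i else η (i - 2 * k))) L.length = L := by
    intro w η
    refine Eq.trans ?_ hPL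
    unfold edg
    refine List.map_congr_left fun i hi => ?_
    rw [List.mem_range] at hi
    simp only
    rw [getD_append_left (by omega), getD_append_left (by omega), if_pos (by omega),
      if_pos (by omega), hsum _ (by omega), hsum _ (by omega)]
  -- a first application
  obtain ⟨w0, w0l, w0p, w0e⟩ := hτ.2 [0, 0, 0, 0] rfl (by
    intro p hp
    left
    simpa using hp)
  have T0 := key w0 [0, 0, 0, 0] w0l rfl w0p (by
    intro p hp
    left
    simpa using hp) w0e (fun _ => 0) (fun _ _ => Or.inl rfl) (fun _ _ => Or.inr rfl)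
  have hP'pos : ∀ i < 2 * L.length, P' i ≠ 0 := by
    intro i hi h0
    have h1 := (T0.z i (by omega)).1 (by
      rw [getD_append_left (by omega), if_pos (by omega)]
      exact h0)
    rw [getD_append_left (by omega), if_pos (by omega), hsum _ (by omega)] at h1
    exact hPpos i hi h1
  have hed' : ∀ e ∈ edg P' L.length, Aj false M e.1 e.2 := by
    intro e he
    obtain ⟨i, hi, rfl⟩ := mem_edg.1 he
    have h1 := T0.a (2 * i) (by omega) (2 * i + 1) (by omega)
    rw [getD_append_left (by omega), getD_append_left (by omega), getD_append_left (by omega),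
      getD_append_left (by omega), if_pos (by omega), if_pos (by omega), hsum _ (by omega),
      hsum _ (by omega)] at h1
    rw [show τ.getD (2 * i) 0 + ξ (2 * i) = P' (2 * i) from rfl,
      show τ.getD (2 * i + 1) 0 + ξ (2 * i + 1) = P' (2 * i + 1) from rfl,
      ajp_pos (hP'pos _ (by omega)) (hP'pos _ (by omega)),
      ajp_pos (hPpos _ (by omega)) (hPpos _ (by omega))] at h1
    unfold Aj
    simp only
    rw [h1]
    have h2 : (P (2 * i) - 1, P (2 * i + 1) - 1) ∈ L := by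
      rw [← hPL]
      exact mem_edg.2 ⟨i, hi, rfl⟩
    exact h.ed _ h2
  refine ⟨edg P' L.length, ⟨by unfold edg; simpa using h.len, hed', ?_⟩, ?_⟩
  · -- no induced path
    intro f hf
    have hlt := P4.lt (fun e he => ⟨(Aj_iff.1 (hed' e he)).1, (Aj_iff.1 (hed' e he)).2.1⟩) hf
    set w' : List ℕ := (List.range 4).map fun j => if f j ∈ R then f j + 1 else 0 with hw'
    set η : ℕ → ℕ := fun j => if f j ∈ Y then f j + 1 else 0 with hη
    have w'l : w'.length = 4 := by rw [hw']; simp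
    have w'p : Pr R w' := by
      intro p hp
      rw [hw', List.mem_map] at hp
      obtain ⟨j, -, rfl⟩ := hp
      split_ifs with h1
      · exact Or.inr (by simpa using h1)
      · exact Or.inl rfl
    have w'g : ∀ j < 4, w'.getD j 0 = if f j ∈ R then f j + 1 else 0 := by
      intro j hj
      rw [List.getD_eq_getElem _ _ (by rw [w'l]; exact hj)]
      simp [hw']
    obtain ⟨w, wl, wp, we⟩ := hτ.2 w' w'l w'p
    have T1 := key w w' wl w'l wp w'p we η (by
      intro j hj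
      simp only [hη]
      split_ifs with h1
      · exact Or.inr ((memX _).2 h1)
      · exact Or.inl rfl) (by
      intro j hj
      rw [w'g j hj]
      simp only [hη]
      by_cases h1 : f j ∈ R
      · right; rw [if_neg (hd _ h1)]
      · left; rw [if_neg h1])
    have hQ : ∀ j < 4, (τ ++ w').getD (2 * k + j) 0 +
        (if 2 * k + j < 2 * k then ξ (2 * k + j) else η (2 * k + j - 2 * k)) = f j + 1 := by
      intro j hj
      rw [getD_append_right (by omega), hτl, if_neg (by omega), Nat.add_sub_cancel_left, w'g j hj]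
      simp only [hη]
      rcases hRY _ (hlt j hj) with h1 | h1
      · rw [if_pos h1, if_neg (hd _ h1)]
      · rw [if_neg (fun h => hd _ h h1), if_pos h1, Nat.zero_add]
    have hfin := P4.to (m := 2 * k) (l := L.length) hl2 (by
      intro i hi
      rw [getD_append_left (by omega), if_pos (by omega)]
      exact hP'pos i hi) T1 le_rfl (by
      intro j hj
      rw [hQ j hj]
      omega) (by
      rw [edP']
      refine P4.congr (fun j hj => ?_) hf
      rw [hQ j hj]
      rfl)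
    rw [edP] at hfin
    exact h.fr _ hfin
  · intro x hx
    obtain ⟨e, he, hxe⟩ := mem_tch.1 hx
    obtain ⟨i, hi, rfl⟩ := mem_edg.1 he
    have hcase : ∀ j < 2 * L.length, P' j - 1 ∈ Y ∨ ∃ τ ∈ T, ∃ p ∈ τ, P' j - 1 = p - 1 := by
      intro j hj
      by_cases h0 : ξ j = 0
      · right
        refine ⟨τ, hτT, τ.getD j 0, ?_, ?_⟩
        · rw [List.getD_eq_getElem _ _ (by omega)]
          exact List.getElem_mem _
        · simp only [hP']
          rw [h0, Nat.add_zero]
      · left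
        have h1 : τ.getD j 0 = 0 := by
          have h2 := (T0.z j (by omega))
          have h3 := hτ.1.zero (by omega) j (by omega)
          rw [← h3]
          exact (hσξ j (by omega)).resolve_right h0
        simp only [hP']
        rw [h1, Nat.zero_add]
        simp only [hξ] at h0 ⊢
        by_cases h2 : P j ≠ 0 ∧ P j - 1 ∈ Y
        · rw [if_pos h2]
          exact h2.2
        · rw [if_neg h2] at h0
          exact absurd rfl h0
    rcases hxe with rfl | rfl
    · exact hcase _ (by omega)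
    · exact hcase _ (by omega)

end Pool.Agent.Q322.CC
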